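import Pool.Agent.H125.BS.Gadget

set_option autoImplicit false

/-! Rewirings with bi-Lipschitz constant two and the local conditions. -/

namespace Pool.Agent.H125.BS

open SimpleGraph

variable {V : Type} {G H : SimpleGraph V}

lemma walk_two (hG : G.Connected) (u v : V) (h : G.dist u v ≤ 2) (hne : u ≠ v) :
    G.Adj u v ∨ ∃ w, G.Adj u w ∧ G.Adj w v := by
  obtain ⟨p, hp⟩ := hG.exists_walk_length_eq_dist u v
  rcases p with _ | ⟨h1, p⟩
  · exact absurd rfl hne
  rcases p with _ | ⟨h2, p⟩
  · exact Or.inl h1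
  rcases p with _ | ⟨h3, p⟩
  · exact Or.inr ⟨_, h1, h2⟩
  · simp only [Walk.length_cons] at hp
    omega

lemma feas_of_dist (hG : G.Connected) (hH : H.Connected)
    (h : ∀ u v, ((H.dist u v : ℝ) ≤ 2 * (G.dist u v : ℝ)) ∧
      ((G.dist u v : ℝ) ≤ 2 * (H.dist u v : ℝ))) : Feas G H := by
  have h' : ∀ u v, H.dist u v ≤ 2 * G.dist u v ∧ G.dist u v ≤ 2 * H.dist u v := by
    intro u v
    obtain ⟨h1, h2⟩ := h u v
    exact ⟨by exact_mod_cast h1, by exact_mod_cast h2⟩
  constructor
  · intro u v huv
    refine walk_two hG u v ?_ huv.ne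
    have h1 : H.dist u v = 1 := dist_eq_one_iff_adj.2 huv
    have := (h' u v).2
    omega
  · intro u v huv
    refine walk_two hH u v ?_ huv.ne
    have h1 : G.dist u v = 1 := dist_eq_one_iff_adj.2 huv
    have := (h' u v).1
    omega

lemma dist_two {u v : V} (h : G.Adj u v ∨ ∃ w, G.Adj u w ∧ G.Adj w v) : G.dist u v ≤ 2 := by
  rcases h with h | ⟨w, h1, h2⟩
  · exact (dist_le (Walk.cons h Walk.nil)).trans (by simp)
  · exact (dist_le (Walk.cons h1 (Walk.cons h2 Walk.nil))).trans (by simp)

lemma dist_walk (hH : H.Connected)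
    (hs : ∀ u v, G.Adj u v → H.Adj u v ∨ ∃ w, H.Adj u w ∧ H.Adj w v) {u v : V}
    (p : G.Walk u v) : H.dist u v ≤ 2 * p.length := by
  induction p with
  | nil => simp
  | @cons a b c h p ih =>
    have h1 := hH.dist_triangle (u := a) (v := b) (w := c)
    have h2 := dist_two (hs _ _ h)
    rw [Walk.length_cons]
    omega

lemma dist_of_feas (hG : G.Connected) (hH : H.Connected) (hf : Feas G H) (u v : V) :
    ((H.dist u v : ℝ) ≤ 2 * (G.dist u v : ℝ)) ∧ ((G.dist u v : ℝ) ≤ 2 * (H.dist u v : ℝ)) := by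
  constructor
  · obtain ⟨p, hp⟩ := hG.exists_walk_length_eq_dist u v
    have := dist_walk hH hf.span p
    rw [hp] at this
    exact_mod_cast this
  · obtain ⟨p, hp⟩ := hH.exists_walk_length_eq_dist u v
    have := dist_walk hG hf.near p
    rw [hp] at this
    exact_mod_cast this

lemma conn_of_feas (hG : G.Connected) (hf : Feas G H) : H.Connected := by
  have key : ∀ u v (_ : G.Walk u v), H.Reachable u v := by
    intro u v p
    induction p with
    | nil => exact Reachable.refl _
    | cons h p ih =>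
      refine Reachable.trans ?_ ih
      rcases hf.span _ _ h with h | ⟨w, h1, h2⟩
      · exact h.reachable
      · exact h1.reachable.trans h2.reachable
  have := hG.nonempty
  exact ⟨fun u v => by
    obtain ⟨p⟩ := hG.preconnected u v
    exact key u v p⟩

lemma Feas.comap {W : Type} (e : W ≃ V) (hf : Feas G H) : Feas (G.comap e) (H.comap e) := by
  constructor
  · intro u v h
    rcases hf.near (e u) (e v) h with h | ⟨w, h1, h2⟩
    · exact Or.inl h
    · refine Or.inr ⟨e.symm w, ?_, ?_⟩
      · show G.Adj _ _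
        rwa [Equiv.apply_symm_apply]
      · show G.Adj _ _
        rwa [Equiv.apply_symm_apply]
  · intro u v h
    rcases hf.span (e u) (e v) h with h | ⟨w, h1, h2⟩
    · exact Or.inl h
    · refine Or.inr ⟨e.symm w, ?_, ?_⟩
      · show H.Adj _ _
        rwa [Equiv.apply_symm_apply]
      · show H.Adj _ _
        rwa [Equiv.apply_symm_apply]

lemma ncard_comap {W : Type} (e : W ≃ V) : (H.comap e).edgeSet.ncard = H.edgeSet.ncard :=
  Nat.card_congr (SimpleGraph.Iso.comap e H).mapEdgeSet

end Pool.Agent.H125.BS
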