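import Mathlib

set_option autoImplicit false
set_option linter.unusedSectionVars false

/-! Counting: some signing is far from balanced. -/

namespace Pool.Agent.H125.BS

open Finset

variable {X : Type} [DecidableEq X] [Fintype X]

lemma sum_weights (π : Fin 2 → Equiv.Perm X) (s : X → Bool) :
    ∑ τ : X × Fin 2 → Bool, ∏ p : X × Fin 2,
      (if s (π p.2 p.1) = xor (s p.1) (τ p) then 1 else 8) = 9 ^ (2 * Fintype.card X) := by
  have h := Finset.prod_univ_sum (fun _ : X × Fin 2 => (univ : Finset Bool))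
    (fun p b => if s (π p.2 p.1) = xor (s p.1) b then 1 else 8)
  rw [Fintype.piFinset_univ] at h
  rw [← h]
  have h2 : ∀ p : X × Fin 2, (∑ b : Bool, if s (π p.2 p.1) = xor (s p.1) b then 1 else 8) = 9 := by
    intro p
    rw [Fintype.sum_bool]
    cases s (π p.2 p.1) <;> cases s p.1 <;> rfl
  rw [Finset.prod_congr rfl (fun p _ => h2 p), Finset.prod_const, Finset.card_univ,
    Fintype.card_prod, Fintype.card_fin, mul_comm]

lemma weight (π : Fin 2 → Equiv.Perm X) (s : X → Bool) (τ : X × Fin 2 → Bool) (T : ℕ)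
    (hT : (univ.filter fun p : X × Fin 2 => s (π p.2 p.1) = xor (s p.1) (τ p)).card ≤ T) :
    8 ^ (2 * Fintype.card X - T) ≤ ∏ p : X × Fin 2,
      (if s (π p.2 p.1) = xor (s p.1) (τ p) then 1 else 8) := by
  rw [Finset.prod_ite, Finset.prod_const_one, one_mul, Finset.prod_const]
  refine Nat.pow_le_pow_right (by norm_num) ?_
  have h := Finset.card_filter_add_card_filter_not (s := (univ : Finset (X × Fin 2)))
    (fun p => s (π p.2 p.1) = xor (s p.1) (τ p))
  rw [Finset.card_univ, Fintype.card_prod, Fintype.card_fin] at h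
  omega

theorem exists_sign [Nonempty X] (π : Fin 2 → Equiv.Perm X) :
    ∃ σ : X → Fin 2 → Bool, ∀ s : X → Bool, Fintype.card X ≤
      8 * (univ.filter fun p : X × Fin 2 => s (π p.2 p.1) = xor (s p.1) (σ p.1 p.2)).card := by
  by_contra hcon
  push Not at hcon
  set n := Fintype.card X with hn
  have hn1 : 1 ≤ n := Fintype.card_pos
  set T := n / 8 with hT
  have h1 : ∀ τ : X × Fin 2 → Bool, 8 ^ (2 * n - T) ≤ ∑ s : X → Bool, ∏ p : X × Fin 2,
      (if s (π p.2 p.1) = xor (s p.1) (τ p) then 1 else 8) := by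
    intro τ
    obtain ⟨s, hs⟩ := hcon fun x i => τ (x, i)
    have h2 := weight π s τ T (by
      have : (univ.filter fun p : X × Fin 2 => s (π p.2 p.1) = xor (s p.1) (τ p)).card =
        (univ.filter fun p : X × Fin 2 => s (π p.2 p.1) = xor (s p.1) (τ (p.1, p.2))).card := rfl
      omega)
    exact h2.trans (Finset.single_le_sum (f := fun s : X → Bool => ∏ p : X × Fin 2,
      (if s (π p.2 p.1) = xor (s p.1) (τ p) then 1 else 8)) (fun _ _ => Nat.zero_le _)
      (mem_univ s))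
  have h2 : 4 ^ n * 8 ^ (2 * n - T) ≤ 2 ^ n * 9 ^ (2 * n) := by
    calc 4 ^ n * 8 ^ (2 * n - T) = ∑ _τ : X × Fin 2 → Bool, 8 ^ (2 * n - T) := by
          rw [Finset.sum_const, Finset.card_univ, Fintype.card_fun, Fintype.card_prod,
            Fintype.card_fin, Fintype.card_bool, smul_eq_mul, ← hn, mul_comm n 2, pow_mul]
          norm_num
      _ ≤ ∑ τ : X × Fin 2 → Bool, ∑ s : X → Bool, ∏ p : X × Fin 2,
          (if s (π p.2 p.1) = xor (s p.1) (τ p) then 1 else 8) :=
          Finset.sum_le_sum fun τ _ => h1 τ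
      _ = 2 ^ n * 9 ^ (2 * n) := by
          rw [Finset.sum_comm, Finset.sum_congr rfl (fun s _ => sum_weights π s), Finset.sum_const,
            Finset.card_univ, Fintype.card_fun, Fintype.card_bool, smul_eq_mul]
  have h3 : (4 ^ n * 8 ^ (2 * n - T)) ^ 8 ≤ (2 ^ n * 9 ^ (2 * n)) ^ 8 := Nat.pow_le_pow_left h2 8
  have h4 : (4 ^ 8 * 8 ^ 15) ^ n ≤ (4 ^ n * 8 ^ (2 * n - T)) ^ 8 := by
    rw [mul_pow, mul_pow, ← pow_mul, ← pow_mul, ← pow_mul, ← pow_mul, mul_comm n 8]
    refine Nat.mul_le_mul_left _ (Nat.pow_le_pow_right (by norm_num) ?_)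
    omega
  have h5 : (2 ^ n * 9 ^ (2 * n)) ^ 8 = (162 ^ 8) ^ n := by
    rw [mul_pow, ← pow_mul, ← pow_mul, ← pow_mul, mul_comm 8 n, pow_mul 162 n 8,
      show (162 : ℕ) = 2 * 9 ^ 2 by norm_num, mul_pow (2 : ℕ) _ n, mul_pow]
    congr 1
    · rw [← pow_mul]
    · rw [← pow_mul, ← pow_mul, mul_assoc]
  have h6 : ((162 ^ 8) ^ n : ℕ) < (4 ^ 8 * 8 ^ 15) ^ n :=
    Nat.pow_lt_pow_left (by norm_num) (by omega)
  omega

end Pool.Agent.H125.BS
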