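import Mathlib

set_option autoImplicit false

/-! Coverings of graphs and balls. -/

namespace Pool.Agent.H125.BS

open SimpleGraph

section

variable {V₁ V₂ : Type} {G₁ : SimpleGraph V₁} {G₂ : SimpleGraph V₂} {Φ : V₁ → V₂}

lemma lift_walk (hlift : ∀ u y, G₂.Adj (Φ u) y → ∃ v, G₁.Adj u v ∧ Φ v = y) :
    ∀ {x y : V₂} (p : G₂.Walk x y) (u : V₁), Φ u = x →
      ∃ v, Φ v = y ∧ ∃ q : G₁.Walk u v, q.length = p.length := by
  intro x y p
  induction p with
  | nil => intro u hu; exact ⟨u, hu, Walk.nil, rfl⟩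
  | cons h p ih =>
    intro u hu
    subst hu
    obtain ⟨v', hv', rfl⟩ := hlift _ _ h
    obtain ⟨v, hv, q, hq⟩ := ih v' rfl
    exact ⟨v, hv, Walk.cons hv' q, by simp [hq]⟩

lemma map_dist (hc₁ : G₁.Connected) (hadj : ∀ u v, G₁.Adj u v → G₂.Adj (Φ u) (Φ v)) (u v : V₁) :
    G₂.dist (Φ u) (Φ v) ≤ G₁.dist u v := by
  obtain ⟨p, hp⟩ := hc₁.exists_walk_length_eq_dist u v
  let f : G₁ →g G₂ := ⟨Φ, fun {a b} h => hadj a b h⟩
  have := dist_le (p.map f)
  rw [Walk.length_map, hp] at this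
  exact this

lemma lift_dist (hc₂ : G₂.Connected)
    (hlift : ∀ u y, G₂.Adj (Φ u) y → ∃ v, G₁.Adj u v ∧ Φ v = y) (o : V₁) (y : V₂) :
    ∃ v, Φ v = y ∧ G₁.dist o v ≤ G₂.dist (Φ o) y := by
  obtain ⟨p, hp⟩ := hc₂.exists_walk_length_eq_dist (Φ o) y
  obtain ⟨v, hv, q, hq⟩ := lift_walk hlift p o rfl
  exact ⟨v, hv, by have := dist_le q; omega⟩

/-- The ball of radius `r` about `v` is the rooted graph `(F, o)`. -/
def BallP {V : Type} (G : SimpleGraph V) (r k : ℕ) (F : SimpleGraph (Fin k)) (o : Fin k)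
    (v : V) : Prop :=
  ∃ e : {w : V // G.dist v w ≤ r} ≃ Fin k,
    (∀ a : {w : V // G.dist v w ≤ r}, (a.1 = v ↔ e a = o)) ∧
    (∀ a b : {w : V // G.dist v w ≤ r}, (G.Adj a.1 b.1 ↔ F.Adj (e a) (e b)))

theorem ballP_iff (hc₁ : G₁.Connected) (hc₂ : G₂.Connected)
    (hadj : ∀ u v, G₁.Adj u v → G₂.Adj (Φ u) (Φ v))
    (hlift : ∀ u y, G₂.Adj (Φ u) y → ∃ v, G₁.Adj u v ∧ Φ v = y) (o : V₁) (r : ℕ)
    (hinj : ∀ u v, G₁.dist o u ≤ r + 1 → G₁.dist o v ≤ r + 1 → Φ u = Φ v → u = v)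
    (k : ℕ) (F : SimpleGraph (Fin k)) (o' : Fin k) :
    BallP G₁ r k F o' o ↔ BallP G₂ r k F o' (Φ o) := by
  let f : {w // G₁.dist o w ≤ r} → {w // G₂.dist (Φ o) w ≤ r} :=
    fun a => ⟨Φ a.1, (map_dist hc₁ hadj o a.1).trans a.2⟩
  have hf : Function.Bijective f := by
    constructor
    · intro a b hab
      have h := congrArg Subtype.val hab
      exact Subtype.ext (hinj _ _ (a.2.trans (Nat.le_succ r)) (b.2.trans (Nat.le_succ r)) h)
    · rintro ⟨y, hy⟩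
      obtain ⟨v, hv, hd⟩ := lift_dist hc₂ hlift o y
      exact ⟨⟨v, hd.trans hy⟩, Subtype.ext hv⟩
  let ε := Equiv.ofBijective f hf
  have hε : ∀ a, (ε a).1 = Φ a.1 := fun a => rfl
  have hadj' : ∀ a b, G₁.Adj (a : {w // G₁.dist o w ≤ r}).1 (b : {w // G₁.dist o w ≤ r}).1 ↔
      G₂.Adj (ε a).1 (ε b).1 := by
    intro a b
    constructor
    · exact hadj _ _
    · intro h
      rw [hε, hε] at h
      obtain ⟨v, hv, hv'⟩ := hlift _ _ h
      have : v = b.1 := by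
        refine hinj _ _ ?_ (b.2.trans (Nat.le_succ r)) hv'
        have h1 := hc₁.dist_triangle (u := o) (v := a.1) (w := v)
        have h2 : G₁.dist a.1 v = 1 := dist_eq_one_iff_adj.2 hv
        have := a.2
        omega
      rw [← this]
      exact hv
  have hroot : ∀ a, ((a : {w // G₁.dist o w ≤ r}).1 = o ↔ (ε a).1 = Φ o) := by
    intro a
    rw [hε]
    constructor
    · intro h; rw [h]
    · intro h
      exact hinj _ _ (a.2.trans (Nat.le_succ r)) (by rw [dist_self]; omega) h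
  constructor
  · rintro ⟨e, he1, he2⟩
    refine ⟨ε.symm.trans e, ?_, ?_⟩
    · intro a
      have h1 := hroot (ε.symm a)
      rw [Equiv.apply_symm_apply] at h1
      rw [← h1, he1]
      rfl
    · intro a b
      have h1 := hadj' (ε.symm a) (ε.symm b)
      rw [Equiv.apply_symm_apply, Equiv.apply_symm_apply] at h1
      rw [← h1, he2]
      rfl
  · rintro ⟨e, he1, he2⟩
    refine ⟨ε.trans e, ?_, ?_⟩
    · intro a
      rw [hroot, he1]
      rfl
    · intro a b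
      rw [hadj', he2]
      rfl

end

end Pool.Agent.H125.BS
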