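import Mathlib

set_option autoImplicit false

/-! Finite index normal subgroups of free groups without short elements (copied from the starting
library, `Pool/Agent/H749R3/Family.lean`). -/

namespace Pool.Agent.H125.BS

theorem ball_finite (n C : ℕ) : {w : FreeGroup (Fin n) | w.norm ≤ C}.Finite := by
  have h := (List.finite_length_le (Fin n × Bool) C).preimage
    (FreeGroup.toWord_injective (α := Fin n)).injOn
  exact h

section girth
variable {m : ℕ}

/-- balls in free groups -/
abbrev Bl (m R : ℕ) : Type := {u : FreeGroup (Fin m) // u.norm ≤ R}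

theorem Bl_finite (m R : ℕ) : Finite (Bl m R) := (ball_finite m R).to_subtype

/-- Left multiplication by a generator as a bijection between two subsets of the ball. -/
def pact (R : ℕ) (x : Fin m) :
    {u : Bl m R // (FreeGroup.of x * u.1).norm ≤ R} ≃
      {u : Bl m R // ((FreeGroup.of x)⁻¹ * u.1).norm ≤ R} where
  toFun := fun u => ⟨⟨FreeGroup.of x * u.1.1, u.2⟩, by
    rw [inv_mul_cancel_left]; exact u.1.2⟩
  invFun := fun u => ⟨⟨(FreeGroup.of x)⁻¹ * u.1.1, u.2⟩, by
    rw [mul_inv_cancel_left]; exact u.1.2⟩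
  left_inv := fun u => by
    apply Subtype.ext; apply Subtype.ext
    exact inv_mul_cancel_left _ _
  right_inv := fun u => by
    apply Subtype.ext; apply Subtype.ext
    exact mul_inv_cancel_left _ _

open Classical in
/-- The permutation by which a generator acts on the ball. -/
noncomputable def act1 (R : ℕ) (x : Fin m) : Equiv.Perm (Bl m R) :=
  haveI := Bl_finite m R
  haveI := Fintype.ofFinite (Bl m R)
  (pact R x).extendSubtype

theorem act1_apply (R : ℕ) (x : Fin m) (u : Bl m R)
    (h : (FreeGroup.of x * u.1).norm ≤ R) : act1 R x u = ⟨FreeGroup.of x * u.1, h⟩ := by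
  classical
  have := Bl_finite m R
  have := Fintype.ofFinite (Bl m R)
  exact Equiv.extendSubtype_apply_of_mem (pact R x) u h

theorem norm_mk_le (l : List (Fin m × Bool)) : (FreeGroup.mk l).norm ≤ l.length :=
  FreeGroup.norm_mk_le

theorem one_norm_le (R : ℕ) : (1 : FreeGroup (Fin m)).norm ≤ R := by
  rw [FreeGroup.norm_one]; exact Nat.zero_le _

theorem act_list (R : ℕ) : ∀ (l : List (Fin m × Bool)) (_ : l.length ≤ R),
    (FreeGroup.lift (act1 (m := m) R) (FreeGroup.mk l) ⟨1, one_norm_le R⟩).1 =
      FreeGroup.mk l := by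
  intro l
  induction l with
  | nil =>
    intro h
    rw [← FreeGroup.one_eq_mk, map_one]
    rfl
  | cons a l ih =>
    intro h
    have h' : l.length ≤ R := by
      rw [List.length_cons] at h; omega
    obtain ⟨x, b⟩ := a
    have hmk : FreeGroup.mk ((x, b) :: l) = FreeGroup.mk [(x, b)] * FreeGroup.mk l := by
      rw [FreeGroup.mul_mk]; rfl
    have hmem : (FreeGroup.mk ((x, b) :: l)).norm ≤ R := (norm_mk_le _).trans h
    have hmem' : (FreeGroup.mk l).norm ≤ R := (norm_mk_le _).trans h'
    have ih2 : FreeGroup.lift (act1 (m := m) R) (FreeGroup.mk l) ⟨1, one_norm_le R⟩ =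
      ⟨FreeGroup.mk l, hmem'⟩ := Subtype.ext (ih h')
    rw [hmk, map_mul, Equiv.Perm.mul_apply, ih2]
    rw [hmk] at hmem
    cases b with
    | true =>
      have h1 : FreeGroup.mk [(x, true)] = FreeGroup.of x := rfl
      rw [h1] at hmem
      rw [h1, FreeGroup.lift_apply_of, act1_apply R x _ hmem]
    | false =>
      have h1 : FreeGroup.mk [(x, false)] = (FreeGroup.of x)⁻¹ := rfl
      rw [h1] at hmem
      rw [h1, map_inv, FreeGroup.lift_apply_of]
      have h2 : act1 R x ⟨(FreeGroup.of x)⁻¹ * FreeGroup.mk l, hmem⟩ =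
          ⟨FreeGroup.mk l, hmem'⟩ := by
        rw [act1_apply R x _ (by rw [mul_inv_cancel_left]; exact hmem')]
        apply Subtype.ext
        exact mul_inv_cancel_left _ _
      rw [← h2, ← Equiv.Perm.mul_apply, inv_mul_cancel]
      rfl

theorem exists_girth (m R : ℕ) : ∃ M : Subgroup (FreeGroup (Fin m)), M.Normal ∧ M.index ≠ 0 ∧
    ∀ w ∈ M, w.norm ≤ R → w = 1 := by
  classical
  let f := FreeGroup.lift (act1 (m := m) R)
  refine ⟨f.ker, inferInstance, ?_, ?_⟩
  · rw [Subgroup.index_ker]
    have := Bl_finite m R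
    exact Nat.card_pos.ne'
  · intro w hw hR
    have h1 := act_list R w.toWord hR
    rw [FreeGroup.mk_toWord] at h1
    have h2 : f w = 1 := hw
    change (f w ⟨1, one_norm_le R⟩).1 = w at h1
    rw [h2] at h1
    exact h1.symm

end girth

end Pool.Agent.H125.BS
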