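import Pool.Agent.H125.BS.Inst
import Pool.Agent.H125.BS.Cover

set_option autoImplicit false
set_option linter.unusedSectionVars false
set_option linter.unusedSimpArgs false

/-! The covering of the signed graphs by the graph of the free group. -/

namespace Pool.Agent.H125.BS

open SimpleGraph Finset

/-- twist of hub kinds -/
def twk (ε : Bool) : HK → HK := Option.map fun q => (q.1, xor q.2 ε)
/-- twist of slot kinds -/
def twm (ε : Bool) : SK → SK := Option.map fun q => (q.1, xor q.2.1 ε, q.2.2)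

lemma twk_twk : ∀ (ε : Bool) (k : HK), twk ε (twk ε k) = k := by decide
lemma twm_twm : ∀ (ε : Bool) (m : SK), twm ε (twm ε m) = m := by decide
lemma twk_inj (ε : Bool) {k k' : HK} (h : twk ε k = twk ε k') : k = k' := by
  rw [← twk_twk ε k, h, twk_twk]
lemma twm_inj (ε : Bool) {k k' : SK} (h : twm ε k = twm ε k') : k = k' := by
  rw [← twm_twm ε k, h, twm_twm]
lemma twk_false : ∀ k : HK, twk false k = k := by decide
lemma twm_false : ∀ k : SK, twm false k = k := by decide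
lemma dir_twm : ∀ (ε : Bool) (m : SK), dir (twm ε m) = dir m := by decide
lemma L0_twm : ∀ (ε : Bool) (m : SK) (t : Bool), L0 (twm ε m) t = (L0 m t).image (twk ε) := by
  decide
lemma L1_twm : ∀ (ε τ : Bool) (m : SK) (t : Bool),
    L1 (twm ε m) t τ = (L1 m t false).image (twk (xor ε τ)) := by decide

lemma mem_NN {X : Type} [DecidableEq X] (π : Fin 2 → Equiv.Perm X) (σ : X → Fin 2 → Bool)
    (x y : X) (m : SK) (t : Bool) (k : HK) :
    (y, k) ∈ NN π σ (x, m, t) ↔ (y = x ∧ k ∈ L0 m t) ∨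
      (y = π (dir m) x ∧ k ∈ L1 m t (σ x (dir m))) := by
  simp only [NN, mem_union, mem_image, Prod.mk.injEq]
  constructor
  · rintro (⟨k', hk, rfl, rfl⟩ | ⟨k', hk, rfl, rfl⟩)
    · exact Or.inl ⟨rfl, hk⟩
    · exact Or.inr ⟨rfl, hk⟩
  · rintro (⟨rfl, hk⟩ | ⟨rfl, hk⟩)
    · exact Or.inl ⟨k, hk, rfl, rfl⟩
    · exact Or.inr ⟨k, hk, rfl, rfl⟩

/-- vertices -/
abbrev VV (X : Type) := (X × HK) ⊕ ((X × SK × Bool) × Fin 4)

section conn

variable {X : Type} [DecidableEq X] (π : Fin 2 → Equiv.Perm X) (σ : X → Fin 2 → Bool)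

lemma reach_hub {x y z : X} {m : SK} {t : Bool} {k l : HK} (hk : (y, k) ∈ NN π σ (x, m, t))
    (hl : (z, l) ∈ NN π σ (x, m, t)) :
    (gad (NN π σ)).Reachable (Sum.inl (y, k)) (Sum.inl (z, l)) := by
  have h1 : (gad (NN π σ)).Adj (Sum.inl (y, k)) (Sum.inr ((x, m, t), 0)) := hk
  have h2 : (gad (NN π σ)).Adj (Sum.inr ((x, m, t), 0)) (Sum.inl (z, l)) := hl
  exact h1.reachable.trans h2.reachable

lemma reach_base (x : X) (k : HK) :
    (gad (NN π σ)).Reachable (Sum.inl (x, ka)) (Sum.inl (x, k)) := by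
  have hb : ∀ j, (gad (NN π σ)).Reachable (Sum.inl (x, ka)) (Sum.inl (x, kb j)) := by
    intro j
    refine reach_hub π σ (x := x) (m := none) (t := true) ?_ ?_
    · rw [mem_NN]; left; exact ⟨rfl, by decide⟩
    · rw [mem_NN]; left; exact ⟨rfl, by cases j <;> decide⟩
  have hh : ∀ i j, (gad (NN π σ)).Reachable (Sum.inl (x, ka)) (Sum.inl (x, kh i j)) := by
    intro i j
    refine reach_hub π σ (x := x) (m := some (i, j, 0)) (t := true) ?_ ?_
    · rw [mem_NN]; left; exact ⟨rfl, by revert i j; decide⟩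
    · rw [mem_NN]; left; exact ⟨rfl, by revert i j; decide⟩
  rcases k with _ | ⟨_ | i, j⟩
  · exact Reachable.refl _
  · exact hb j
  · exact hh i j

lemma reach_step (x : X) (i : Fin 2) :
    (gad (NN π σ)).Reachable (Sum.inl (x, ka)) (Sum.inl (π i x, ka)) := by
  refine (reach_base π σ x (kh i false)).trans ?_
  refine reach_hub π σ (x := x) (m := some (i, false, 2)) (t := true) ?_ ?_
  · rw [mem_NN]; left; exact ⟨rfl, by revert i; decide⟩
  · rw [mem_NN]; right; exact ⟨rfl, by simp [L1]⟩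

lemma gad_conn [Nonempty X] (htr : ∀ S : Set X, S.Nonempty → (∀ i x, x ∈ S ↔ π i x ∈ S) →
    S = Set.univ) : (gad (NN π σ)).Connected := by
  obtain ⟨o⟩ := ‹Nonempty X›
  have h1 : {x | (gad (NN π σ)).Reachable (Sum.inl (o, ka)) (Sum.inl (x, ka))} = Set.univ := by
    refine htr _ ⟨o, Reachable.refl _⟩ ?_
    intro i x
    exact ⟨fun h => h.trans (reach_step π σ x i), fun h => h.trans (reach_step π σ x i).symm⟩
  have h2 : ∀ v : VV X, (gad (NN π σ)).Reachable (Sum.inl (o, ka)) v := by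
    have h3 : ∀ x k, (gad (NN π σ)).Reachable (Sum.inl (o, ka)) (Sum.inl (x, k)) := by
      intro x k
      have : x ∈ {x | (gad (NN π σ)).Reachable (Sum.inl (o, ka)) (Sum.inl (x, ka))} := by
        rw [h1]; trivial
      exact (show (gad (NN π σ)).Reachable (Sum.inl (o, ka)) (Sum.inl (x, ka)) from this).trans
        (reach_base π σ x k)
    rintro (⟨x, k⟩ | ⟨⟨x, m, t⟩, c⟩)
    · exact h3 x k
    · have h4 : ∀ (m : SK) (t : Bool), ∃ k, k ∈ L0 m t := by decide
      obtain ⟨k, hk⟩ := h4 m t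
      have h5 : (gad (NN π σ)).Adj (Sum.inl (x, k)) (Sum.inr ((x, m, t), c)) := by
        show (x, k) ∈ NN π σ (x, m, t)
        rw [mem_NN]
        exact Or.inl ⟨rfl, hk⟩
      exact (h3 x k).trans h5.reachable
  have : Nonempty (VV X) := ⟨Sum.inl (o, ka)⟩
  exact ⟨fun u v => (h2 u).symm.trans (h2 v)⟩

end conn

section sys

variable {Γ : Type} [Group Γ] [DecidableEq Γ] (φ : FreeGroup (Fin 2) →* Γ)
  (σ : Γ → Fin 2 → Bool)

/-- left multiplication by the generators -/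
def pg : Fin 2 → Equiv.Perm Γ := fun i => Equiv.mulLeft (φ (FreeGroup.of i))

/-- signed generators -/
def Pii (i : Fin 2) : Equiv.Perm (Γ × Bool) where
  toFun y := (φ (FreeGroup.of i) * y.1, xor y.2 (σ y.1 i))
  invFun y := ((φ (FreeGroup.of i))⁻¹ * y.1, xor y.2 (σ ((φ (FreeGroup.of i))⁻¹ * y.1) i))
  left_inv := by
    rintro ⟨x, b⟩
    simp
  right_inv := by
    rintro ⟨x, b⟩
    simp

def rho : FreeGroup (Fin 2) →* Equiv.Perm (Γ × Bool) := FreeGroup.lift (Pii φ σ)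

def Psi (x : Γ) (w : FreeGroup (Fin 2)) : Γ × Bool := rho φ σ w (x, false)

lemma Psi_one (x : Γ) : Psi φ σ x 1 = (x, false) := by simp [Psi]

lemma Psi_of (x : Γ) (w : FreeGroup (Fin 2)) (i : Fin 2) :
    Psi φ σ x (FreeGroup.of i * w) = (φ (FreeGroup.of i) * (Psi φ σ x w).1,
      xor (Psi φ σ x w).2 (σ (Psi φ σ x w).1 i)) := by
  simp only [Psi, rho, map_mul, FreeGroup.lift_apply_of, Equiv.Perm.mul_apply]
  rfl

lemma rho_fst (w : FreeGroup (Fin 2)) : ∀ y : Γ × Bool, (rho φ σ w y).1 = φ w * y.1 := by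
  induction w using FreeGroup.induction_on with
  | C1 => intro y; simp
  | of i => intro y; simp only [rho, FreeGroup.lift_apply_of]; rfl
  | inv_of i h =>
    intro y
    rw [map_inv, map_inv]
    have := h ((rho φ σ (FreeGroup.of i))⁻¹ y)
    have h2 : rho φ σ (FreeGroup.of i) ((rho φ σ (FreeGroup.of i))⁻¹ y) = y :=
      Equiv.apply_symm_apply _ y
    rw [h2] at this
    rw [this, inv_mul_cancel_left]
  | mul a b ha hb =>
    intro y
    rw [map_mul, map_mul, Equiv.Perm.mul_apply, ha, hb, mul_assoc]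

lemma Psi_fst (x : Γ) (w : FreeGroup (Fin 2)) : (Psi φ σ x w).1 = φ w * x := rho_fst φ σ w _

/-- The covering map. -/
def PHI (x : Γ) : VV (FreeGroup (Fin 2)) → VV Γ
  | Sum.inl (w, k) => Sum.inl ((Psi φ σ x w).1, twk (Psi φ σ x w).2 k)
  | Sum.inr ((w, m, t), c) => Sum.inr (((Psi φ σ x w).1, twm (Psi φ σ x w).2 m, t), c)

/-- The graph of the free group. -/
abbrev GF : SimpleGraph (VV (FreeGroup (Fin 2))) :=
  gad (NN (pg (MonoidHom.id (FreeGroup (Fin 2)))) (fun _ _ => false))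

lemma PHI_mem (x : Γ) (w w' : FreeGroup (Fin 2)) (m : SK) (t : Bool) (k : HK)
    (h : (w', k) ∈ NN (pg (MonoidHom.id (FreeGroup (Fin 2)))) (fun _ _ => false) (w, m, t)) :
    ((Psi φ σ x w').1, twk (Psi φ σ x w').2 k) ∈
      NN (pg φ) σ ((Psi φ σ x w).1, twm (Psi φ σ x w).2 m, t) := by
  rw [mem_NN] at h ⊢
  rcases h with ⟨rfl, hk⟩ | ⟨rfl, hk⟩
  · left
    refine ⟨rfl, ?_⟩
    rw [L0_twm]
    exact mem_image_of_mem _ hk
  · right
    have h1 : pg (MonoidHom.id (FreeGroup (Fin 2))) (dir m) w = FreeGroup.of (dir m) * w := rfl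
    rw [h1, Psi_of, dir_twm]
    refine ⟨rfl, ?_⟩
    rw [L1_twm]
    exact mem_image_of_mem _ hk

lemma PHI_adj (x : Γ) (u v : VV (FreeGroup (Fin 2))) (h : GF.Adj u v) :
    (gad (NN (pg φ) σ)).Adj (PHI φ σ x u) (PHI φ σ x v) := by
  rcases u with ⟨w, k⟩ | ⟨⟨w, m, t⟩, c⟩ <;> rcases v with ⟨w', k'⟩ | ⟨⟨w', m', t'⟩, c'⟩
  · exact absurd h id
  · exact PHI_mem φ σ x w' w m' t' k h
  · exact PHI_mem φ σ x w w' m t k' h
  · exact absurd h id

lemma PHI_lift (x : Γ) (u : VV (FreeGroup (Fin 2))) (y : VV Γ)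
    (h : (gad (NN (pg φ) σ)).Adj (PHI φ σ x u) y) : ∃ v, GF.Adj u v ∧ PHI φ σ x v = y := by
  rcases u with ⟨w, k⟩ | ⟨⟨w, m, t⟩, c⟩ <;> rcases y with ⟨y, k'⟩ | ⟨⟨y, m', t'⟩, c'⟩
  · exact absurd h id
  · have h' : ((Psi φ σ x w).1, twk (Psi φ σ x w).2 k) ∈ NN (pg φ) σ (y, m', t') := h
    rw [mem_NN] at h'
    rcases h' with ⟨h1, hk⟩ | ⟨h1, hk⟩
    · refine ⟨Sum.inr ((w, twm (Psi φ σ x w).2 m', t'), c'), ?_, ?_⟩
      · show (w, k) ∈ NN _ _ (w, twm (Psi φ σ x w).2 m', t')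
        rw [mem_NN]
        left
        refine ⟨rfl, ?_⟩
        rw [L0_twm]
        rw [← twk_twk (Psi φ σ x w).2 k]
        exact mem_image_of_mem _ hk
      · simp only [PHI, twm_twm, h1]
    · set i := dir m' with hi
      set w' := (FreeGroup.of i)⁻¹ * w with hw'
      have hw : w = FreeGroup.of i * w' := by rw [hw', mul_inv_cancel_left]
      have hP := Psi_of φ σ x w' i
      rw [← hw] at hP
      have hy : y = (Psi φ σ x w').1 := by
        have h2 : (Psi φ σ x w).1 = φ (FreeGroup.of i) * y := h1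
        rw [hP] at h2
        exact (mul_left_cancel h2).symm
      refine ⟨Sum.inr ((w', twm (Psi φ σ x w').2 m', t'), c'), ?_, ?_⟩
      · show (w, k) ∈ NN _ _ (w', twm (Psi φ σ x w').2 m', t')
        rw [mem_NN]
        right
        refine ⟨?_, ?_⟩
        · rw [dir_twm, ← hi]
          exact hw
        · have h3 : L1 m' t' (σ y i) = (L1 (twm (Psi φ σ x w').2 m') t' false).image
              (twk (Psi φ σ x w).2) := by
            rw [hP, hy, ← L1_twm, twm_twm]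
          rw [h3, mem_image] at hk
          obtain ⟨k'', hk'', hkk⟩ := hk
          rwa [← twk_inj _ hkk]
      · simp only [PHI, twm_twm, ← hy]
  · have h' : (y, k') ∈ NN (pg φ) σ ((Psi φ σ x w).1, twm (Psi φ σ x w).2 m, t) := h
    rw [mem_NN] at h'
    rcases h' with ⟨h1, hk⟩ | ⟨h1, hk⟩
    · rw [L0_twm, mem_image] at hk
      obtain ⟨k, hk, rfl⟩ := hk
      refine ⟨Sum.inl (w, k), ?_, ?_⟩
      · show (w, k) ∈ NN _ _ (w, m, t)
        rw [mem_NN]
        exact Or.inl ⟨rfl, hk⟩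
      · simp only [PHI, h1]
    · rw [L1_twm, mem_image] at hk
      obtain ⟨k, hk, rfl⟩ := hk
      rw [dir_twm] at h1 ⊢
      refine ⟨Sum.inl (FreeGroup.of (dir m) * w, k), ?_, ?_⟩
      · show (_, k) ∈ NN _ _ (w, m, t)
        rw [mem_NN]
        exact Or.inr ⟨rfl, hk⟩
      · simp only [PHI, Psi_of, h1]
        rfl
  · exact absurd h id

/-- group coordinate -/
def gc {Y : Type} : VV Y → Y
  | Sum.inl (w, _) => w
  | Sum.inr ((w, _, _), _) => w

lemma gc_adj (u v : VV (FreeGroup (Fin 2))) (h : GF.Adj u v) : (gc v).norm ≤ (gc u).norm + 1 := by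
  have key : ∀ (w w' : FreeGroup (Fin 2)) (m : SK) (t : Bool) (k : HK),
      (w', k) ∈ NN (pg (MonoidHom.id (FreeGroup (Fin 2)))) (fun _ _ => false) (w, m, t) →
      w'.norm ≤ w.norm + 1 ∧ w.norm ≤ w'.norm + 1 := by
    intro w w' m t k h
    rw [mem_NN] at h
    rcases h with ⟨rfl, -⟩ | ⟨rfl, -⟩
    · omega
    · have h1 : pg (MonoidHom.id (FreeGroup (Fin 2))) (dir m) w = FreeGroup.of (dir m) * w := rfl
      rw [h1]
      have h2 := FreeGroup.norm_mul_le (FreeGroup.of (dir m)) w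
      have h3 := FreeGroup.norm_mul_le (FreeGroup.of (dir m))⁻¹ (FreeGroup.of (dir m) * w)
      rw [inv_mul_cancel_left, FreeGroup.norm_inv_eq, FreeGroup.norm_of] at h3
      rw [FreeGroup.norm_of] at h2
      omega
  rcases u with ⟨w, k⟩ | ⟨⟨w, m, t⟩, c⟩ <;> rcases v with ⟨w', k'⟩ | ⟨⟨w', m', t'⟩, c'⟩
  · exact absurd h id
  · exact (key w' w m' t' k h).2
  · exact (key w w' m t k' h).1
  · exact absurd h id

lemma gc_walk {u v : VV (FreeGroup (Fin 2))} (p : GF.Walk u v) :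
    (gc v).norm ≤ (gc u).norm + p.length := by
  induction p with
  | nil => simp
  | cons h p ih =>
    have := gc_adj _ _ h
    rw [Walk.length_cons]
    omega

lemma PHI_inj (x : Γ) (u v : VV (FreeGroup (Fin 2))) (hg : gc u = gc v)
    (h : PHI φ σ x u = PHI φ σ x v) : u = v := by
  rcases u with ⟨w, k⟩ | ⟨⟨w, m, t⟩, c⟩ <;> rcases v with ⟨w', k'⟩ | ⟨⟨w', m', t'⟩, c'⟩
  · have : w = w' := hg
    subst this
    simp only [PHI, Sum.inl.injEq, Prod.mk.injEq, true_and] at h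
    rw [twk_inj _ h]
  · exact absurd h (by simp [PHI])
  · exact absurd h (by simp [PHI])
  · have : w = w' := hg
    subst this
    simp only [PHI, Sum.inr.injEq, Prod.mk.injEq, true_and] at h
    obtain ⟨⟨h1, h2⟩, h3⟩ := h
    rw [twm_inj _ h1, h2, h3]

lemma PHI_gc (x : Γ) (u : VV (FreeGroup (Fin 2))) : gc (PHI φ σ x u) = φ (gc u) * x := by
  rcases u with ⟨w, k⟩ | ⟨⟨w, m, t⟩, c⟩
  · exact Psi_fst φ σ x w
  · exact Psi_fst φ σ x w

/-- transitivity -/
lemma trans_sys (hφ : Function.Surjective φ) (S : Set Γ) (hS : S.Nonempty)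
    (hcl : ∀ i x, x ∈ S ↔ pg φ i x ∈ S) : S = Set.univ := by
  have key : ∀ g x, x ∈ S ↔ φ g * x ∈ S := by
    intro g
    induction g using FreeGroup.induction_on with
    | C1 => intro x; simp
    | of i => exact hcl i
    | inv_of i h =>
      intro x
      rw [h (φ (FreeGroup.of i)⁻¹ * x), map_inv, mul_inv_cancel_left]
    | mul a b ha hb =>
      intro x
      rw [hb, ha, map_mul, mul_assoc]
  obtain ⟨x0, hx0⟩ := hS
  ext x
  simp only [Set.mem_univ, iff_true]
  obtain ⟨g, hg⟩ := hφ (x * x0⁻¹)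
  rw [key g] at hx0
  rw [hg, inv_mul_cancel_right] at hx0
  exact hx0

lemma GF_conn : GF.Connected :=
  gad_conn _ _ fun S hS hcl => trans_sys (MonoidHom.id _) (fun x => ⟨x, rfl⟩) S hS hcl

lemma gs_conn (hφ : Function.Surjective φ) : (gad (NN (pg φ) σ)).Connected :=
  gad_conn _ _ fun S hS hcl => trans_sys φ hφ S hS hcl

/-- vertex kinds -/
abbrev K0 := HK ⊕ ((SK × Bool) × Fin 4)

/-- a vertex over the base point -/
def vx {Y : Type} (y : Y) : K0 → VV Y
  | Sum.inl k => Sum.inl (y, k)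
  | Sum.inr ((m, t), c) => Sum.inr ((y, m, t), c)

theorem ball_sys (hφ : Function.Surjective φ) (r R : ℕ) (hR : 2 * (r + 1) ≤ R)
    (hgirth : ∀ w, φ w = 1 → w.norm ≤ R → w = 1) (x : Γ) (κ : K0)
    (k : ℕ) (F : SimpleGraph (Fin k)) (o : Fin k) :
    BallP GF r k F o (vx 1 κ) ↔ BallP (gad (NN (pg φ) σ)) r k F o (vx x κ) := by
  have h := ballP_iff (G₁ := GF) (G₂ := gad (NN (pg φ) σ)) (Φ := PHI φ σ x) GF_conn
    (gs_conn φ σ hφ) (PHI_adj φ σ x) (PHI_lift φ σ x) (vx 1 κ) r ?_ k F o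
  · rw [h]
    have : PHI φ σ x (vx 1 κ) = vx x κ := by
      rcases κ with k | ⟨⟨m, t⟩, c⟩
      · simp only [vx, PHI, Psi_one, twk_false]
      · simp only [vx, PHI, Psi_one, twm_false]
    rw [this]
  · intro u v hu hv huv
    have hn : ∀ u, GF.dist (vx 1 κ) u ≤ r + 1 → (gc u).norm ≤ r + 1 := by
      intro u hu
      obtain ⟨p, hp⟩ := GF_conn.exists_walk_length_eq_dist (vx 1 κ) u
      have h1 := gc_walk p
      have h2 : (gc (vx (1 : FreeGroup (Fin 2)) κ)).norm = 0 := by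
        rcases κ with k | ⟨⟨m, t⟩, c⟩
        · exact FreeGroup.norm_one
        · exact FreeGroup.norm_one
      omega
    refine PHI_inj φ σ x u v ?_ huv
    have h1 := PHI_gc φ σ x u
    have h2 := PHI_gc φ σ x v
    rw [huv, h2] at h1
    have h3 := mul_right_cancel h1
    have h4 : φ ((gc v)⁻¹ * gc u) = 1 := by rw [map_mul, map_inv, h3, inv_mul_cancel]
    have h5 := hgirth _ h4 (by
      have h6 := FreeGroup.norm_mul_le (gc v)⁻¹ (gc u)
      rw [FreeGroup.norm_inv_eq] at h6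
      have := hn u hu
      have := hn v hv
      omega)
    rw [inv_mul_eq_one] at h5
    exact h5.symm

end sys

end Pool.Agent.H125.BS
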