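import Pool.Agent.H125.BS.Inst

set_option autoImplicit false
set_option linter.unusedSectionVars false
set_option linter.unusedSimpArgs false

/-! A cheap 2-rewiring for the constant signing. -/

namespace Pool.Agent.H125.BS

open SimpleGraph Finset

section

variable {X : Type} [DecidableEq X]

/-- the constant signing -/
def one : X → Fin 2 → Bool := fun _ _ => true

/-- centre of a hyperedge -/
def cen (π : Fin 2 → Equiv.Perm X) : X × SK × Bool → X × HK
  | (x, m, false) => U1 π x m
  | (x, none, true) => U2 π one x none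
  | (x, some (i, j, l), true) =>
    if l = 0 then (if j then U1 π x (some (i, j, l)) else U2 π one x (some (i, j, l)))
    else if l = 1 then (if j then U2 π one x (some (i, j, l)) else U1 π x (some (i, j, l)))
    else (if j then U2 π one x (some (i, j, l)) else U1 π x (some (i, j, l)))

/-- the pairs used -/
def gp (π : Fin 2 → Equiv.Perm X) : (X × SK) ⊕ (X ⊕ (X × Fin 2 × Bool)) → Sym2 (X × HK)
  | Sum.inl (x, m) => s(U1 π x m, U2 π one x m)
  | Sum.inr (Sum.inl x) => s((x, ka), (x, kb true))
  | Sum.inr (Sum.inr (x, i, e)) => s((x, kh i e), if e then (π i x, kb false) else (x, kb false))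

lemma cen_mem (π : Fin 2 → Equiv.Perm X) (t : X × SK × Bool) : cen π t ∈ NN π one t := by
  obtain ⟨x, m, b⟩ := t
  cases b
  · rw [NN_false]
    simp [cen]
  · rw [NN_true]
    rcases m with _ | ⟨i, j, l⟩
    · simp [cen]
    · fin_cases l <;> cases j <;> simp [cen]

lemma star (π : Fin 2 → Equiv.Perm X) (t : X × SK × Bool) (h : X × HK) (hh : h ∈ NN π one t)
    (hne : h ≠ cen π t) : s(cen π t, h) ∈ Set.range (gp π) := by
  obtain ⟨x, m, b⟩ := t
  cases b
  · rw [NN_false, mem_insert, mem_singleton] at hh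
    rcases hh with hh | hh
    · exact absurd hh hne
    · exact ⟨Sum.inl (x, m), by rw [hh]; rfl⟩
  · rw [NN_true, mem_insert, mem_insert, mem_singleton] at hh
    rcases m with _ | ⟨i, j, l⟩
    · rcases hh with hh | hh | hh
      · exact ⟨Sum.inl (x, none), by rw [hh, Sym2.eq_swap]; rfl⟩
      · exact absurd hh hne
      · exact ⟨Sum.inr (Sum.inl x), by rw [hh, Sym2.eq_swap]; rfl⟩
    · fin_cases l <;> cases j <;> rcases hh with hh | hh | hh
      · exact ⟨Sum.inl (x, some (i, false, 0)), by rw [hh, Sym2.eq_swap]; rfl⟩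
      · exact absurd hh hne
      · exact ⟨Sum.inr (Sum.inr (x, i, false)), by rw [hh]; rfl⟩
      · exact absurd hh hne
      · exact ⟨Sum.inl (x, some (i, true, 0)), by rw [hh]; rfl⟩
      · exact ⟨Sum.inr (Sum.inl x), by rw [hh]; rfl⟩
      · exact absurd hh hne
      · exact ⟨Sum.inl (x, some (i, false, 1)), by rw [hh]; rfl⟩
      · exact ⟨Sum.inr (Sum.inr (x, i, false)), by rw [hh, Sym2.eq_swap]; rfl⟩
      · exact ⟨Sum.inl (x, some (i, true, 1)), by rw [hh, Sym2.eq_swap]; rfl⟩
      · exact absurd hh hne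
      · exact ⟨Sum.inr (Sum.inr (x, i, true)), by rw [hh, Sym2.eq_swap]; rfl⟩
      · exact absurd hh hne
      · exact ⟨Sum.inl (x, some (i, false, 2)), by rw [hh]; rfl⟩
      · exact ⟨Sum.inr (Sum.inl (π i x)), by rw [hh]; rfl⟩
      · exact ⟨Sum.inl (x, some (i, true, 2)), by rw [hh, Sym2.eq_swap]; rfl⟩
      · exact absurd hh hne
      · exact ⟨Sum.inr (Sum.inr (x, i, true)), by rw [hh]; rfl⟩

lemma gp_near (π : Fin 2 → Equiv.Perm X) (e : (X × SK) ⊕ (X ⊕ (X × Fin 2 × Bool))) :
    ∃ t, ∀ h ∈ gp π e, h ∈ NN π one t := by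
  rcases e with ⟨x, m⟩ | x | ⟨x, i, b⟩
  · refine ⟨(x, m, false), ?_⟩
    intro h hh
    rw [NN_false, mem_insert, mem_singleton]
    simpa [gp] using hh
  · refine ⟨(x, none, true), ?_⟩
    intro h hh
    rw [NN_true, mem_insert, mem_insert, mem_singleton]
    simp only [gp, Sym2.mem_iff] at hh
    rcases hh with hh | hh
    · exact Or.inr (Or.inr hh)
    · exact Or.inr (Or.inl hh)
  · cases b
    · refine ⟨(x, some (i, false, 0), true), ?_⟩
      intro h hh
      rw [NN_true, mem_insert, mem_insert, mem_singleton]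
      simp only [gp, Sym2.mem_iff] at hh
      rcases hh with hh | hh
      · exact Or.inr (Or.inl hh)
      · exact Or.inr (Or.inr hh)
    · refine ⟨(x, some (i, true, 1), true), ?_⟩
      intro h hh
      rw [NN_true, mem_insert, mem_insert, mem_singleton]
      simp only [gp, Sym2.mem_iff] at hh
      rcases hh with hh | hh
      · exact Or.inr (Or.inr hh)
      · exact Or.inr (Or.inl hh)

/-- the cheap rewiring -/
def HH (π : Fin 2 → Equiv.Perm X) : SimpleGraph ((X × HK) ⊕ ((X × SK × Bool) × Fin 4)) where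
  Adj
    | Sum.inl h, Sum.inl h' => h ≠ h' ∧ s(h, h') ∈ Set.range (gp π)
    | Sum.inl h, Sum.inr v => h = cen π v.1
    | Sum.inr v, Sum.inl h => h = cen π v.1
    | Sum.inr _, Sum.inr _ => False
  symm := ⟨by
    rintro (h | v) (h' | v') hh
    · exact ⟨hh.1.symm, by rw [Sym2.eq_swap]; exact hh.2⟩
    · exact hh
    · exact hh
    · exact hh⟩
  loopless := ⟨by
    rintro (h | v) hh
    · exact hh.1 rfl
    · exact hh⟩

lemma HH_feas (π : Fin 2 → Equiv.Perm X) : Feas (gad (NN π one)) (HH π) := by
  constructor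
  · rintro (h | v) (h' | v') hh
    · obtain ⟨hne, e, he⟩ := hh
      obtain ⟨t, ht⟩ := gp_near π e
      rw [he] at ht
      exact Or.inr ⟨Sum.inr (t, 0), ht h (by simp), ht h' (by simp)⟩
    · left
      have : h = cen π v'.1 := hh
      rw [this]
      exact cen_mem π v'.1
    · left
      have : h' = cen π v.1 := hh
      rw [this]
      exact cen_mem π v.1
    · exact absurd hh id
  · have key : ∀ (h : X × HK) (v : (X × SK × Bool) × Fin 4), h ∈ NN π one v.1 →
        (HH π).Adj (Sum.inl h) (Sum.inr v) ∨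
        ((HH π).Adj (Sum.inl h) (Sum.inl (cen π v.1)) ∧
          (HH π).Adj (Sum.inl (cen π v.1)) (Sum.inr v)) := by
      intro h v hh
      by_cases hc : h = cen π v.1
      · exact Or.inl hc
      · refine Or.inr ⟨⟨hc, ?_⟩, rfl⟩
        rw [Sym2.eq_swap]
        exact star π v.1 h hh hc
    rintro (h | v) (h' | v') hh
    · exact absurd hh id
    · rcases key h v' hh with h1 | ⟨h1, h2⟩
      · exact Or.inl h1
      · exact Or.inr ⟨_, h1, h2⟩
    · rcases key h' v hh with h1 | ⟨h1, h2⟩
      · exact Or.inl h1.symm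
      · exact Or.inr ⟨_, h2.symm, h1.symm⟩
    · exact absurd hh id

lemma HH_card [Fintype X] (π : Fin 2 → Equiv.Perm X) :
    (HH π).edgeSet.ncard ≤ 122 * Fintype.card X := by
  classical
  let f1 : Finset (Sym2 ((X × HK) ⊕ ((X × SK × Bool) × Fin 4))) :=
    (univ : Finset ((X × SK) ⊕ (X ⊕ (X × Fin 2 × Bool)))).image
      fun e => Sym2.map Sum.inl (gp π e)
  let f2 : Finset (Sym2 ((X × HK) ⊕ ((X × SK × Bool) × Fin 4))) :=
    (univ : Finset ((X × SK × Bool) × Fin 4)).image fun v => s(Sum.inr v, Sum.inl (cen π v.1))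
  have hsub : (HH π).edgeSet ⊆ ((f1 ∪ f2 : Finset _) : Set _) := by
    intro e he
    rw [mem_coe, mem_union]
    induction e with
    | h u v =>
      rw [mem_edgeSet] at he
      rcases u with h | p <;> rcases v with h' | p'
      · obtain ⟨hne, e, he⟩ := he
        left
        exact mem_image.2 ⟨e, mem_univ _, by rw [he]; rfl⟩
      · right
        have : h = cen π p'.1 := he
        exact mem_image.2 ⟨p', mem_univ _, by rw [this]; exact Sym2.eq_swap⟩
      · right
        have : h' = cen π p.1 := he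
        exact mem_image.2 ⟨p, mem_univ _, by rw [this]⟩
      · exact absurd he id
  refine (Set.ncard_le_ncard hsub (Finset.finite_toSet _)).trans ?_
  rw [Set.ncard_coe_finset]
  refine (Finset.card_union_le _ _).trans ?_
  refine (Nat.add_le_add Finset.card_image_le Finset.card_image_le).trans ?_
  have hSK : Fintype.card SK = 13 := by simp [SK]
  rw [Finset.card_univ, Finset.card_univ, Fintype.card_sum, Fintype.card_sum, Fintype.card_prod,
    Fintype.card_prod, Fintype.card_prod, Fintype.card_prod, Fintype.card_prod, Fintype.card_prod,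
    hSK, Fintype.card_fin, Fintype.card_bool, Fintype.card_fin]
  omega

end

end Pool.Agent.H125.BS
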