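import Pool.Agent.H125.BS.Lower
import Pool.Agent.H125.BS.Upper
import Pool.Agent.H125.BS.Count
import Pool.Agent.H125.BS.Sys
import Pool.Agent.H125.BS.Conv
import Pool.Agent.H125.BS.Girth

set_option autoImplicit false
set_option linter.unusedSectionVars false
set_option linter.unusedSimpArgs false

/-! Assembly. -/

namespace Pool.Agent.H125.BS

open SimpleGraph Finset

section vx

variable {Y : Type}

/-- kind of a vertex -/
def kk : VV Y → K0
  | Sum.inl (_, k) => Sum.inl k
  | Sum.inr ((_, m, t), c) => Sum.inr ((m, t), c)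

/-- vertices are pairs (base point, kind) -/
def vxe : Y × K0 ≃ VV Y where
  toFun p := vx p.1 p.2
  invFun v := (gc v, kk v)
  left_inv := by
    rintro ⟨y, k | ⟨⟨m, t⟩, c⟩⟩ <;> rfl
  right_inv := by
    rintro (⟨y, k⟩ | ⟨⟨y, m, t⟩, c⟩) <;> rfl

lemma card_K0 : Fintype.card K0 = 111 := by
  simp [K0, SK, HK]

lemma card_VV [Fintype Y] : Fintype.card (VV Y) = 111 * Fintype.card Y := by
  rw [← Fintype.card_congr (vxe (Y := Y)), Fintype.card_prod, card_K0, mul_comm]

lemma ncard_kk [Fintype Y] (P : K0 → Prop) :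
    {v : VV Y | P (kk v)}.ncard = Fintype.card Y * {κ : K0 | P κ}.ncard := by
  have h : {v : VV Y | P (kk v)} = vxe '' ((Set.univ : Set Y) ×ˢ {κ : K0 | P κ}) := by
    ext v
    constructor
    · intro hv
      exact ⟨(gc v, kk v), ⟨trivial, hv⟩, vxe.apply_symm_apply v⟩
    · rintro ⟨⟨y, κ⟩, ⟨-, hκ⟩, rfl⟩
      have : kk (vxe (y, κ)) = κ := congrArg Prod.snd (vxe.symm_apply_apply (y, κ))
      show P (kk (vxe (y, κ)))
      rw [this]
      exact hκ
  rw [h, Set.ncard_image_of_injective _ vxe.injective, Set.ncard_prod, Set.ncard_univ,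
    Nat.card_eq_fintype_card]

end vx

/-- The degree bound. -/
lemma deg_bound {X : Type} [DecidableEq X] (π : Fin 2 → Equiv.Perm X) (σ : X → Fin 2 → Bool)
    (h1 : ∀ i x, π i x ≠ x) (v : VV X) : ((gad (NN π σ)).neighborSet v).ncard ≤ 208 := by
  classical
  rcases v with ⟨y, k⟩ | ⟨⟨x, m, t⟩, c⟩
  · let f : Finset (VV X) := (univ : Finset (Bool × SK × Bool × Fin 4)).image fun q =>
      Sum.inr ((if q.1 then y else (π (dir q.2.1)).symm y, q.2.1, q.2.2.1), q.2.2.2)
    have hsub : (gad (NN π σ)).neighborSet (Sum.inl (y, k)) ⊆ (f : Set (VV X)) := by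
      rintro (⟨x, l⟩ | ⟨⟨x, m, t⟩, c⟩) hu
      · exact absurd hu id
      · have hu' : (y, k) ∈ NN π σ (x, m, t) := hu
        rw [mem_NN] at hu'
        rw [mem_coe, mem_image]
        rcases hu' with ⟨h, -⟩ | ⟨h, -⟩
        · exact ⟨(true, m, t, c), mem_univ _, by simp [h]⟩
        · exact ⟨(false, m, t, c), mem_univ _, by simp [h]⟩
    refine (Set.ncard_le_ncard hsub (Finset.finite_toSet _)).trans ?_
    rw [Set.ncard_coe_finset]
    refine Finset.card_image_le.trans ?_
    simp [SK]
  · let f : Finset (VV X) := (NN π σ (x, m, t)).image Sum.inl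
    have hsub : (gad (NN π σ)).neighborSet (Sum.inr ((x, m, t), c)) ⊆ (f : Set (VV X)) := by
      rintro (⟨y, l⟩ | ⟨⟨y, m', t'⟩, c'⟩) hu
      · have hu' : (y, l) ∈ NN π σ (x, m, t) := hu
        rw [mem_coe, mem_image]
        exact ⟨(y, l), hu', rfl⟩
      · exact absurd hu id
    refine (Set.ncard_le_ncard hsub (Finset.finite_toSet _)).trans ?_
    rw [Set.ncard_coe_finset]
    refine Finset.card_image_le.trans ?_
    have := (NN_card (σ := σ) h1 (x, m, t)).2
    omega

/-- limit frequency -/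
noncomputable def pp (r k : ℕ) (F : SimpleGraph (Fin k)) (o : Fin k) : ℝ :=
  ({κ : K0 | BallP GF r k F o (vx 1 κ)}.ncard : ℝ) / 111

/-- values of rewirings with constant two -/
def RW {N : ℕ} (G : SimpleGraph (Fin N)) : Set ℝ :=
  {x : ℝ | ∃ H : SimpleGraph (Fin N), H.Connected ∧
    (∀ u v : Fin N, ((H.dist u v : ℝ) ≤ 2 * (G.dist u v : ℝ)) ∧
      ((G.dist u v : ℝ) ≤ 2 * (H.dist u v : ℝ))) ∧
    x = (H.edgeSet.ncard : ℝ) / (N : ℝ)}

theorem exists_graph (R : ℕ) (hR : 2 ≤ R) (bad : Bool) :
    ∃ (N : ℕ) (G : SimpleGraph (Fin N)), G.Connected ∧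
      (∀ v, (G.neighborSet v).ncard ≤ 208) ∧
      (∀ r, 2 * (r + 1) ≤ R → ∀ (k : ℕ) (F : SimpleGraph (Fin k)) (o : Fin k),
        ({v : Fin N | BallP G r k F o v}.ncard : ℝ) / (N : ℝ) = pp r k F o) ∧
      (if bad then ∀ x ∈ RW G, (122 / 111 + 1 / 3552 : ℝ) ≤ x
        else ∃ x ∈ RW G, x ≤ (122 / 111 : ℝ)) := by
  classical
  obtain ⟨M, hM1, hM2, hM3⟩ := exists_girth 2 R
  have : M.FiniteIndex := ⟨hM2⟩
  let Γ := FreeGroup (Fin 2) ⧸ M
  have hfin : Finite Γ := inferInstance
  have hft : Fintype Γ := Fintype.ofFinite Γ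
  let φ : FreeGroup (Fin 2) →* Γ := QuotientGroup.mk' M
  have hφ : Function.Surjective φ := QuotientGroup.mk'_surjective M
  have hgirth : ∀ w, φ w = 1 → w.norm ≤ R → w = 1 := by
    intro w hw hn
    exact hM3 w ((QuotientGroup.eq_one_iff w).1 hw) hn
  have h1 : ∀ i x, pg φ i x ≠ x := by
    intro i x h
    have h2 : φ (FreeGroup.of i) * x = x := h
    have h3 : φ (FreeGroup.of i) = 1 := by
      have := mul_eq_right.1 h2
      exact this
    have h4 := hgirth _ h3 (by rw [FreeGroup.norm_of]; omega)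
    exact FreeGroup.of_ne_one i h4
  have h2 : ∀ i i' x, pg φ i x = pg φ i' x → i = i' := by
    intro i i' x h
    have h2 : φ (FreeGroup.of i) * x = φ (FreeGroup.of i') * x := h
    have h3 := mul_right_cancel h2
    have h4 : φ ((FreeGroup.of i')⁻¹ * FreeGroup.of i) = 1 := by
      rw [map_mul, map_inv, h3, inv_mul_cancel]
    have h5 := hgirth _ h4 (by
      have := FreeGroup.norm_mul_le (FreeGroup.of i')⁻¹ (FreeGroup.of i)
      rw [FreeGroup.norm_inv_eq, FreeGroup.norm_of, FreeGroup.norm_of] at this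
      omega)
    rw [inv_mul_eq_one] at h5
    exact (FreeGroup.of_injective h5).symm
  have h3 : ∀ i i' x, pg φ i' (pg φ i x) ≠ x := by
    intro i i' x h
    have h2 : φ (FreeGroup.of i') * (φ (FreeGroup.of i) * x) = x := h
    rw [← mul_assoc, ← map_mul] at h2
    have h3 : φ (FreeGroup.of i' * FreeGroup.of i) = 1 := mul_eq_right.1 h2
    have h5 := hgirth _ h3 (by
      have := FreeGroup.norm_mul_le (FreeGroup.of i') (FreeGroup.of i)
      rw [FreeGroup.norm_of, FreeGroup.norm_of] at this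
      omega)
    have h6 : (FreeGroup.of i' * FreeGroup.of i : FreeGroup (Fin 2)).toWord.length = 0 := by
      rw [h5]; rfl
    have h7 : (FreeGroup.of i' * FreeGroup.of i : FreeGroup (Fin 2)) =
        FreeGroup.mk [(i', true), (i, true)] := rfl
    rw [h7, FreeGroup.toWord_mk] at h6
    revert h6
    clear h5 h3 h2 h h7
    revert i i'
    decide
  -- the signing
  obtain ⟨σ, hσ⟩ : ∃ σ : Γ → Fin 2 → Bool, if bad then (∀ s : Γ → Bool, Fintype.card Γ ≤
      8 * (univ.filter fun p : Γ × Fin 2 => s (pg φ p.2 p.1) = xor (s p.1) (σ p.1 p.2)).card)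
      else σ = one := by
    cases bad
    · exact ⟨one, by simp⟩
    · obtain ⟨σ, h⟩ := exists_sign (pg φ)
      exact ⟨σ, by simpa using h⟩
  set n := Fintype.card Γ with hn
  have hn0 : 0 < n := Fintype.card_pos
  let G0 := gad (NN (pg φ) σ)
  have hG0 : G0.Connected := gs_conn φ σ hφ
  let e : VV Γ ≃ Fin (Fintype.card (VV Γ)) := Fintype.equivFin _
  let N := Fintype.card (VV Γ)
  have hN : N = 111 * n := card_VV
  let G : SimpleGraph (Fin N) := G0.comap e.symm
  have hG : G.Connected := by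
    have := (SimpleGraph.Iso.comap e.symm G0).connected_iff
    exact this.2 hG0
  have hNR : (0 : ℝ) < N := by rw [hN]; positivity
  have hNr : (N : ℝ) = 111 * n := by exact_mod_cast hN
  refine ⟨N, G, hG, ?_, ?_, ?_⟩
  · intro v
    have h : G.neighborSet v = e '' (G0.neighborSet (e.symm v)) := by
      ext w
      constructor
      · intro hw
        exact ⟨e.symm w, hw, e.apply_symm_apply w⟩
      · rintro ⟨w', hw', rfl⟩
        show G0.Adj (e.symm v) (e.symm (e w'))
        rw [e.symm_apply_apply]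
        exact hw'
    rw [h, Set.ncard_image_of_injective _ e.injective]
    exact deg_bound _ _ h1 _
  · intro r hr k F o
    have hb : ∀ v, BallP G r k F o v ↔ BallP GF r k F o (vx 1 (kk (e.symm v))) := by
      intro v
      have h := ballP_iff (G₁ := G) (G₂ := G0) (Φ := e.symm) hG hG0 (fun u v h => h)
        (fun u y h => ⟨e y, by
          show G0.Adj (e.symm u) (e.symm (e y))
          rw [e.symm_apply_apply]
          exact h, e.symm_apply_apply y⟩) v r (fun a b _ _ h => e.symm.injective h) k F o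
      rw [h]
      have h2 := ball_sys φ σ hφ r R hr hgirth (gc (e.symm v)) (kk (e.symm v)) k F o
      rw [h2]
      have h3 : vx (gc (e.symm v)) (kk (e.symm v)) = e.symm v := vxe.apply_symm_apply (e.symm v)
      rw [h3]
    have hset : {v : Fin N | BallP G r k F o v} =
        e '' {v : VV Γ | BallP GF r k F o (vx 1 (kk v))} := by
      ext v
      constructor
      · intro hv
        exact ⟨e.symm v, (hb v).1 hv, e.apply_symm_apply v⟩
      · rintro ⟨w, hw, rfl⟩
        refine (hb (e w)).2 ?_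
        rw [e.symm_apply_apply]
        exact hw
    rw [hset, Set.ncard_image_of_injective _ e.injective,
      ncard_kk (Y := Γ) (fun κ => BallP GF r k F o (vx 1 κ)), hN, pp]
    have : (n : ℝ) ≠ 0 := by positivity
    push_cast
    rw [← hn]
    field_simp
  · cases bad
    · simp only [Bool.false_eq_true, if_false] at hσ ⊢
      subst hσ
      let H : SimpleGraph (Fin N) := (HH (pg φ)).comap e.symm
      have hf : Feas G H := (HH_feas (pg φ)).comap e.symm
      have hH : H.Connected := conn_of_feas hG hf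
      refine ⟨(H.edgeSet.ncard : ℝ) / (N : ℝ), ⟨H, hH, dist_of_feas hG hH hf, rfl⟩, ?_⟩
      have h4 : H.edgeSet.ncard ≤ 122 * n := by
        have h5 : H.edgeSet.ncard = (HH (pg φ)).edgeSet.ncard := ncard_comap e.symm
        rw [h5]
        exact HH_card (pg φ)
      rw [div_le_div_iff₀ hNR (by norm_num)]
      have h6 : (H.edgeSet.ncard : ℝ) ≤ 122 * n := by exact_mod_cast h4
      linarith
    · simp only [if_true] at hσ ⊢
      rintro x ⟨H, hH, hd, rfl⟩
      have hf : Feas G H := feas_of_dist hG hH hd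
      have hf' : Feas G0 (H.comap e) := by
        have h4 := hf.comap e
        have h5 : G.comap e = G0 := by
          ext u v
          show G0.Adj (e.symm (e u)) (e.symm (e v)) ↔ _
          rw [e.symm_apply_apply, e.symm_apply_apply]
        rwa [h5] at h4
      obtain ⟨s, hs⟩ := lower_edges h1 h2 h3 (H.comap e) hf'
      have h4 := hσ s
      have h5 : (H.comap e).edgeSet.ncard = H.edgeSet.ncard := ncard_comap e
      rw [h5, ← hn] at hs
      have h6 : 8 * (488 * n) + n ≤ 8 * (4 * H.edgeSet.ncard) := by omega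
      have h7 : (8 * (488 * n) + n : ℝ) ≤ 8 * (4 * H.edgeSet.ncard) := by exact_mod_cast h6
      rw [le_div_iff₀ hNR]
      linarith

end Pool.Agent.H125.BS
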