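import Mathlib

set_option autoImplicit false

/-! A hypergraph gadget: the smallest 2-bi-Lipschitz rewiring of a bipartite incidence graph
(hyperedges repeated four times) is controlled by a local covering problem for pairs of hubs. -/

namespace Pool.Agent.H125.BS

open SimpleGraph Finset

/-- Incidence graph of the hypergraph `N`, every hyperedge repeated four times. -/
def gad {U T : Type} (N : T → Finset U) : SimpleGraph (U ⊕ (T × Fin 4)) where
  Adj
    | Sum.inl h, Sum.inr v => h ∈ N v.1
    | Sum.inr v, Sum.inl h => h ∈ N v.1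
    | Sum.inl _, Sum.inl _ => False
    | Sum.inr _, Sum.inr _ => False
  symm := ⟨by
    rintro (h | v) (h' | v') hh
    · exact hh
    · exact hh
    · exact hh
    · exact hh⟩
  loopless := ⟨by
    rintro (h | v) hh
    · exact hh
    · exact hh⟩

/-- The local conditions for a rewiring with bi-Lipschitz constant two. -/
structure Feas {V : Type} (G H : SimpleGraph V) : Prop where
  near : ∀ u v, H.Adj u v → G.Adj u v ∨ ∃ w, G.Adj u w ∧ G.Adj w v
  span : ∀ u v, G.Adj u v → H.Adj u v ∨ ∃ w, H.Adj u w ∧ H.Adj w v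

set_option linter.unusedSectionVars false
set_option linter.unusedSimpArgs false

section PartA

variable {U T : Type} [Fintype U] [DecidableEq U] [Fintype T] [DecidableEq T] {N : T → Finset U}

lemma gad_lr (h : U) (v : T × Fin 4) : (gad N).Adj (Sum.inl h) (Sum.inr v) ↔ h ∈ N v.1 := Iff.rfl
lemma gad_rl (h : U) (v : T × Fin 4) : (gad N).Adj (Sum.inr v) (Sum.inl h) ↔ h ∈ N v.1 := Iff.rfl
lemma gad_ll (h h' : U) : ¬ (gad N).Adj (Sum.inl h) (Sum.inl h') := fun h => h
lemma gad_rr (v v' : T × Fin 4) : ¬ (gad N).Adj (Sum.inr v) (Sum.inr v') := fun h => h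

lemma near_rl {H : SimpleGraph (U ⊕ (T × Fin 4))} (hf : Feas (gad N) H) (h : U) (v : T × Fin 4)
    (hh : H.Adj (Sum.inr v) (Sum.inl h)) : h ∈ N v.1 := by
  rcases hf.near _ _ hh with h1 | ⟨w, h1, h2⟩
  · exact h1
  · rcases w with w | w
    · exact absurd h2 (gad_ll _ _)
    · exact absurd h1 (gad_rr _ _)

/-- number of edges of a symmetric bipartite-like double count -/
lemma dcount {P : Type} [Fintype P] [DecidableEq P] (Q : SimpleGraph P) [DecidableRel Q.Adj]
    (A B : Finset P) :
    ∑ v ∈ A, (B.filter (fun w => Q.Adj v w)).card = ∑ v ∈ B, (A.filter (fun w => Q.Adj v w)).card := by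
  have h := Finset.sum_card_bipartiteAbove_eq_sum_card_bipartiteBelow (s := A) (t := B) Q.Adj
  simp only [Finset.bipartiteAbove, Finset.bipartiteBelow] at h
  rw [h]
  refine Finset.sum_congr rfl fun v _ => ?_
  congr 1
  ext w
  simp only [mem_filter, Q.adj_comm]

theorem partA (hcard : ∀ t, 2 ≤ (N t).card ∧ (N t).card ≤ 3) (z : T → U)
    (hz : ∀ t t', N t' ⊆ N t → z t ∈ N t') (H : SimpleGraph (U ⊕ (T × Fin 4)))
    (hf : Feas (gad N) H) :
    ∃ D : Finset (Sym2 U), 4 * Fintype.card T + D.card ≤ H.edgeSet.ncard ∧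
      ∀ t, ∀ b ∈ N t, ∃ h ∈ N t, h ≠ b ∧ s(b, h) ∈ D := by
  classical
  let KN : T × Fin 4 → Finset U := fun v => univ.filter fun h => H.Adj (Sum.inr v) (Sum.inl h)
  have hKN : ∀ v h, h ∈ KN v ↔ H.Adj (Sum.inr v) (Sum.inl h) := by
    intro v h
    simp [KN]
  have hKNN : ∀ v, KN v ⊆ N v.1 := fun v h hh => near_rl hf h v ((hKN v h).1 hh)
  let A : Finset (T × Fin 4) := univ.filter fun v => (KN v).Nonempty
  let B : Finset (T × Fin 4) := univ.filter fun v => ¬ (KN v).Nonempty
  have hA : ∀ v, v ∈ A ↔ (KN v).Nonempty := by intro v; simp [A]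
  have hB : ∀ v, v ∈ B ↔ ¬ (KN v).Nonempty := by intro v; simp [B]
  have hAB : A.card + B.card = 4 * Fintype.card T := by
    have := Finset.card_filter_add_card_filter_not (s := (univ : Finset (T × Fin 4)))
      (fun v => (KN v).Nonempty)
    rw [Finset.card_univ, Fintype.card_prod, Fintype.card_fin] at this
    simp only [A, B]
    omega
  let Q : SimpleGraph (T × Fin 4) := H.comap Sum.inr
  have hQ : ∀ v w, Q.Adj v w ↔ H.Adj (Sum.inr v) (Sum.inr w) := fun v w => Iff.rfl
  let R : SimpleGraph U := H.comap Sum.inl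
  have hR : ∀ v w, R.Adj v w ↔ H.Adj (Sum.inl v) (Sum.inl w) := fun v w => Iff.rfl
  -- total count
  have hE : R.edgeFinset.card + ∑ v, (KN v).card + Q.edgeFinset.card ≤ H.edgeSet.ncard := by
    let f1 : Finset (Sym2 (U ⊕ (T × Fin 4))) := R.edgeFinset.image (Sym2.map Sum.inl)
    let f2 : Finset (Sym2 (U ⊕ (T × Fin 4))) :=
      ((univ : Finset (T × Fin 4)).sigma fun v => KN v).image fun x => s(Sum.inr x.1, Sum.inl x.2)
    let f3 : Finset (Sym2 (U ⊕ (T × Fin 4))) := Q.edgeFinset.image (Sym2.map Sum.inr)
    have c1 : f1.card = R.edgeFinset.card :=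
      Finset.card_image_of_injective _ (Sym2.map.injective Sum.inl_injective)
    have c3 : f3.card = Q.edgeFinset.card :=
      Finset.card_image_of_injective _ (Sym2.map.injective Sum.inr_injective)
    have c2 : f2.card = ∑ v, (KN v).card := by
      rw [Finset.card_image_of_injective, Finset.card_sigma]
      rintro ⟨v, h⟩ ⟨v', h'⟩ hh
      simp only [Sym2.eq_iff, Sum.inr.injEq, Sum.inl.injEq, reduceCtorEq, false_and, and_false,
        or_false] at hh
      obtain ⟨rfl, rfl⟩ := hh
      rfl
    have d12 : Disjoint f1 f2 := by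
      rw [Finset.disjoint_left]
      intro e he1 he2
      simp only [f1, f2, mem_image, mem_sigma, mem_univ, true_and] at he1 he2
      obtain ⟨e', -, rfl⟩ := he1
      obtain ⟨x, -, hx⟩ := he2
      induction e' with
      | h u v =>
        simp [Sym2.eq_iff] at hx
    have d13 : Disjoint f1 f3 := by
      rw [Finset.disjoint_left]
      intro e he1 he2
      simp only [f1, f3, mem_image] at he1 he2
      obtain ⟨e', -, rfl⟩ := he1
      obtain ⟨x, -, hx⟩ := he2
      induction e' with
      | h u v =>
        induction x with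
        | h u' v' => simp [Sym2.eq_iff] at hx
    have d23 : Disjoint f2 f3 := by
      rw [Finset.disjoint_left]
      intro e he1 he2
      simp only [f2, f3, mem_image, mem_sigma, mem_univ, true_and] at he1 he2
      obtain ⟨x, -, hx⟩ := he1
      obtain ⟨e', -, rfl⟩ := he2
      induction e' with
      | h u v =>
        simp [Sym2.eq_iff] at hx
    have hsub : ((f1 ∪ f2 ∪ f3 : Finset _) : Set (Sym2 (U ⊕ (T × Fin 4)))) ⊆ H.edgeSet := by
      intro e he
      simp only [coe_union, Set.mem_union, mem_coe] at he
      rcases he with (he | he) | he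
      · simp only [f1, mem_image, mem_edgeFinset] at he
        obtain ⟨e', he', rfl⟩ := he
        induction e' with
        | h u v => exact he'
      · simp only [f2, mem_image, mem_sigma, mem_univ, true_and] at he
        obtain ⟨x, hx, rfl⟩ := he
        exact (hKN _ _).1 hx
      · simp only [f3, mem_image, mem_edgeFinset] at he
        obtain ⟨e', he', rfl⟩ := he
        induction e' with
        | h u v => exact he'
    have hle := Set.ncard_le_ncard hsub (Set.toFinite _)
    rw [Set.ncard_coe_finset, Finset.card_union_of_disjoint (Finset.disjoint_union_left.2 ⟨d13, d23⟩),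
      Finset.card_union_of_disjoint d12, c1, c2, c3] at hle
    exact hle
  -- degrees among the points
  have hdeg : 2 * Q.edgeFinset.card = ∑ v, ((A.filter fun w => Q.Adj v w).card +
      (B.filter fun w => Q.Adj v w).card) := by
    rw [← Q.sum_degrees_eq_twice_card_edges]
    refine Finset.sum_congr rfl fun v _ => ?_
    rw [← Q.card_neighborFinset_eq_degree, ← Finset.card_union_of_disjoint]
    · congr 1
      ext w
      simp only [mem_neighborFinset, mem_union, mem_filter, hA, hB]
      tauto
    · rw [Finset.disjoint_left]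
      intro w h1 h2
      rw [mem_filter, hA] at h1
      rw [mem_filter, hB] at h2
      exact h2.1 h1.1
  let Good : T × Fin 4 → Prop := fun v =>
    ((KN v).Nonempty ∧ ∀ h ∈ N v.1, h ∈ KN v ∨ ∃ c ∈ KN v, H.Adj (Sum.inl c) (Sum.inl h)) ∨
    (¬ (KN v).Nonempty ∧ (A.filter fun w => Q.Adj v w).card + (B.filter fun w => Q.Adj v w).card ≤ 1)
  let Bad : Finset (T × Fin 4) := univ.filter fun v => ¬ Good v
  have hspan : ∀ v h, h ∈ N v.1 → h ∈ KN v ∨ (∃ c ∈ KN v, H.Adj (Sum.inl c) (Sum.inl h)) ∨
      ∃ w, Q.Adj v w ∧ h ∈ KN w := by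
    intro v h hh
    rcases hf.span (Sum.inr v) (Sum.inl h) hh with h1 | ⟨w, h1, h2⟩
    · exact Or.inl ((hKN _ _).2 h1)
    · rcases w with c | w
      · exact Or.inr (Or.inl ⟨c, (hKN _ _).2 h1, h2⟩)
      · exact Or.inr (Or.inr ⟨w, h1, (hKN _ _).2 h2⟩)
  have hptB : ∀ v ∈ B, 2 + (if Good v then 0 else 1) ≤
      2 * (A.filter fun w => Q.Adj v w).card + (B.filter fun w => Q.Adj v w).card := by
    intro v hv
    rw [hB] at hv
    have hne : (N v.1).Nonempty := Finset.card_pos.1 (by have := (hcard v.1).1; omega)
    obtain ⟨h, hh⟩ := hne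
    have h1 : 1 ≤ (A.filter fun w => Q.Adj v w).card := by
      rcases hspan v h hh with h1 | ⟨c, hc, -⟩ | ⟨w, hw, hw'⟩
      · exact absurd ⟨h, h1⟩ hv
      · exact absurd ⟨c, hc⟩ hv
      · exact Finset.card_pos.2 ⟨w, by rw [mem_filter, hA]; exact ⟨⟨h, hw'⟩, hw⟩⟩
    split_ifs with hg
    · omega
    · have : ¬ ((A.filter fun w => Q.Adj v w).card + (B.filter fun w => Q.Adj v w).card ≤ 1) := by
        intro hle
        exact hg (Or.inr ⟨hv, hle⟩)
      omega
  have hptA : ∀ v ∈ A, (if Good v then 0 else 1) ≤ (A.filter fun w => Q.Adj v w).card := by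
    intro v hv
    split_ifs with hg
    · omega
    · rw [hA] at hv
      have : ¬ ∀ h ∈ N v.1, h ∈ KN v ∨ ∃ c ∈ KN v, H.Adj (Sum.inl c) (Sum.inl h) :=
        fun h => hg (Or.inl ⟨hv, h⟩)
      push Not at this
      obtain ⟨h, hh, h1, h2⟩ := this
      rcases hspan v h hh with h3 | ⟨c, hc, h3⟩ | ⟨w, hw, hw'⟩
      · exact absurd h3 h1
      · exact absurd h3 (h2 c hc)
      · exact Finset.card_pos.2 ⟨w, by rw [mem_filter, hA]; exact ⟨⟨h, hw'⟩, hw⟩⟩
  have hsplit : ∀ f : T × Fin 4 → ℕ, ∑ v, f v = ∑ v ∈ A, f v + ∑ v ∈ B, f v := by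
    intro f
    exact (Finset.sum_filter_add_sum_filter_not univ (fun v => (KN v).Nonempty) f).symm
  have hbadcard : Bad.card = ∑ v, (if Good v then 0 else 1) := by
    rw [Finset.card_filter]
    exact Finset.sum_congr rfl fun v _ => by by_cases h : Good v <;> simp [h]
  have hpt : 2 * B.card + Bad.card ≤ 2 * Q.edgeFinset.card := by
    rw [hdeg, hbadcard, hsplit, hsplit (fun v => (A.filter fun w => Q.Adj v w).card +
      (B.filter fun w => Q.Adj v w).card)]
    have e1 := dcount Q A B
    have e2 : ∑ v ∈ B, (2 + (if Good v then 0 else 1)) ≤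
        ∑ v ∈ B, (2 * (A.filter fun w => Q.Adj v w).card + (B.filter fun w => Q.Adj v w).card) :=
      Finset.sum_le_sum hptB
    have e3 : ∑ v ∈ A, (if Good v then 0 else 1) ≤ ∑ v ∈ A, (A.filter fun w => Q.Adj v w).card :=
      Finset.sum_le_sum hptA
    simp only [Finset.sum_add_distrib, Finset.sum_const, smul_eq_mul, ← Finset.mul_sum] at e2 ⊢
    omega
  let badT : Finset T := univ.filter fun t => ∀ c : Fin 4, ¬ Good (t, c)
  have hbadT : 4 * badT.card ≤ Bad.card := by
    have : (badT ×ˢ (univ : Finset (Fin 4))).card ≤ Bad.card := by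
      refine Finset.card_le_card ?_
      rintro ⟨t, c⟩ h
      simp only [badT, mem_product, mem_filter, mem_univ, true_and, and_true] at h
      simp only [Bad, mem_filter, mem_univ, true_and]
      exact h c
    rw [Finset.card_product, Finset.card_univ, Fintype.card_fin] at this
    omega
  have hzN : ∀ t, z t ∈ N t := fun t => hz t t (Finset.Subset.refl _)
  let h0 : T × Fin 4 → U := fun v => if h : z v.1 ∈ KN v then z v.1 else
    if h' : (KN v).Nonempty then h'.choose else z v.1
  have hh0 : ∀ v, (KN v).Nonempty → h0 v ∈ KN v := by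
    intro v hv
    simp only [h0]
    split_ifs with h1
    · exact h1
    · exact hv.choose_spec
  have hh0' : ∀ v, z v.1 ∈ KN v → h0 v = z v.1 := by
    intro v hv
    simp only [h0]
    rw [dif_pos hv]
  let D1 : Finset (Sym2 U) := A.biUnion fun v => ((KN v).erase (h0 v)).image fun h => s(h0 v, h)
  let D2 : Finset (Sym2 U) := badT.biUnion fun t => ((N t).erase (z t)).image fun h => s(z t, h)
  have hD1 : D1.card + A.card ≤ ∑ v ∈ A, (KN v).card := by
    have h1 : D1.card ≤ ∑ v ∈ A, ((KN v).card - 1) := by
      refine Finset.card_biUnion_le.trans (Finset.sum_le_sum fun v hv => ?_)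
      refine Finset.card_image_le.trans ?_
      rw [Finset.card_erase_of_mem (hh0 v ((hA v).1 hv))]
    have h2 : ∑ v ∈ A, ((KN v).card - 1) + A.card = ∑ v ∈ A, (KN v).card := by
      rw [Finset.card_eq_sum_ones, ← Finset.sum_add_distrib]
      refine Finset.sum_congr rfl fun v hv => ?_
      have := Finset.card_pos.2 ((hA v).1 hv)
      omega
    omega
  have hD2 : D2.card ≤ 2 * badT.card := by
    refine Finset.card_biUnion_le.trans ?_
    rw [Finset.card_eq_sum_ones badT, Finset.mul_sum]
    refine Finset.sum_le_sum fun t _ => ?_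
    refine Finset.card_image_le.trans ?_
    rw [Finset.card_erase_of_mem (hzN t)]
    have := (hcard t).2
    omega
  refine ⟨R.edgeFinset ∪ D1 ∪ D2, ?_, ?_⟩
  · have h1 : (R.edgeFinset ∪ D1 ∪ D2).card ≤ R.edgeFinset.card + D1.card + D2.card :=
      (Finset.card_union_le _ _).trans (Nat.add_le_add_right (Finset.card_union_le _ _) _)
    have h2 := hsplit fun v => (KN v).card
    omega
  · have hother : ∀ t b, b ∈ N t → ∃ h ∈ N t, h ≠ b := by
      intro t b hb
      have : 1 < (N t).card := (hcard t).1
      obtain ⟨h, hh, hne⟩ := Finset.exists_mem_ne this b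
      exact ⟨h, hh, hne⟩
    intro t b hb
    by_cases ht : t ∈ badT
    · by_cases hbz : b = z t
      · obtain ⟨h, hh, hne⟩ := hother t b hb
        refine ⟨h, hh, hne, ?_⟩
        rw [mem_union]
        right
        rw [mem_biUnion]
        refine ⟨t, ht, mem_image.2 ⟨h, mem_erase.2 ⟨hbz ▸ hne, hh⟩, by rw [hbz]⟩⟩
      · refine ⟨z t, hzN t, fun h => hbz h.symm, ?_⟩
        rw [mem_union]
        right
        rw [mem_biUnion]
        exact ⟨t, ht, mem_image.2 ⟨b, mem_erase.2 ⟨hbz, hb⟩, Sym2.eq_swap⟩⟩
    · have : ∃ c : Fin 4, Good (t, c) := by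
        by_contra hcon
        push Not at hcon
        exact ht (by simp only [badT, mem_filter, mem_univ, true_and]; exact hcon)
      obtain ⟨c, hg⟩ := this
      -- star inside `KN v`
      have hstar : ∀ v, ∀ h1 ∈ KN v, (KN v).Nonempty → h1 ≠ h0 v → s(h1, h0 v) ∈ D1 := by
        intro v h1 hh1 hne hne'
        simp only [D1, mem_biUnion, mem_image, mem_erase]
        exact ⟨v, (hA v).2 hne, h1, ⟨hne', hh1⟩, Sym2.eq_swap⟩
      rcases hg with ⟨hne, hcov⟩ | ⟨hne, hle⟩
      · rcases hcov b hb with h1 | ⟨c', hc', h1⟩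
        · by_cases hb0 : b = h0 (t, c)
          · -- find another element
            obtain ⟨h, hh, hhb⟩ := hother t b hb
            by_cases hk : ∃ h' ∈ KN (t, c), h' ≠ b
            · obtain ⟨h', hh', hne'⟩ := hk
              refine ⟨h', hKNN _ hh', hne', ?_⟩
              rw [mem_union, mem_union]
              left; right
              have := hstar (t, c) h' hh' hne (by rw [← hb0]; exact hne')
              rw [← hb0] at this
              rwa [Sym2.eq_swap]
            · push Not at hk
              rcases hcov h hh with h2 | ⟨c', hc', h2⟩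
              · exact absurd (hk h h2) hhb
              · have := hk c' hc'
                subst this
                refine ⟨h, hh, hhb, ?_⟩
                rw [mem_union, mem_union]
                left; left
                rw [mem_edgeFinset]
                exact h2
          · refine ⟨h0 (t, c), hKNN _ (hh0 _ hne), fun h => hb0 h.symm, ?_⟩
            rw [mem_union, mem_union]
            left; right
            exact hstar (t, c) b h1 hne hb0
        · refine ⟨c', hKNN _ hc', ?_, ?_⟩
          · intro h
            subst h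
            exact H.loopless.1 _ h1
          · rw [mem_union, mem_union]
            left; left
            rw [mem_edgeFinset]
            exact h1.symm
      · -- unique point neighbour
        have huniq : ∀ w w', Q.Adj (t, c) w → Q.Adj (t, c) w' → w = w' := by
          intro w w' hw hw'
          have hle' : ((A.filter fun w => Q.Adj (t, c) w) ∪
              (B.filter fun w => Q.Adj (t, c) w)).card ≤ 1 :=
            (Finset.card_union_le _ _).trans hle
          rw [Finset.card_le_one] at hle'
          have hm : ∀ w, Q.Adj (t, c) w → w ∈ (A.filter fun w => Q.Adj (t, c) w) ∪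
              (B.filter fun w => Q.Adj (t, c) w) := by
            intro w hw
            simp only [mem_union, mem_filter, hA, hB]
            tauto
          exact hle' w (hm w hw) w' (hm w' hw')
        have hw0 : ∀ h ∈ N t, ∃ w, Q.Adj (t, c) w ∧ h ∈ KN w := by
          intro h hh
          rcases hspan (t, c) h hh with h1 | ⟨c', hc', -⟩ | h1
          · exact absurd ⟨h, h1⟩ hne
          · exact absurd ⟨c', hc'⟩ hne
          · exact h1
        obtain ⟨w, hw, hbw⟩ := hw0 b hb
        have hsub : N t ⊆ KN w := by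
          intro h hh
          obtain ⟨w', hw', hhw'⟩ := hw0 h hh
          rw [huniq w w' hw hw']
          exact hhw'
        have hzw : z w.1 ∈ N t := hz w.1 t (hsub.trans (hKNN w))
        have hh0w : h0 w = z w.1 := hh0' w (hsub hzw)
        have hnew : (KN w).Nonempty := ⟨b, hbw⟩
        by_cases hbz : b = z w.1
        · obtain ⟨h, hh, hhb⟩ := hother t b hb
          refine ⟨h, hh, hhb, ?_⟩
          rw [mem_union, mem_union]
          left; right
          have := hstar w h (hsub hh) hnew (by rw [hh0w, ← hbz]; exact hhb)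
          rw [hh0w, ← hbz] at this
          rwa [Sym2.eq_swap]
        · refine ⟨z w.1, hzw, fun h => hbz h.symm, ?_⟩
          rw [mem_union, mem_union]
          left; right
          have := hstar w b hbw hnew (by rw [hh0w]; exact hbz)
          rwa [hh0w] at this

end PartA

end Pool.Agent.H125.BS
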