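import Pool.Agent.H125.BS.Gadget

set_option autoImplicit false
set_option linter.unusedSectionVars false
set_option linter.unusedSimpArgs false

/-! The hypergraph attached to a set with two permutations and a signing. -/

namespace Pool.Agent.H125.BS

open SimpleGraph Finset

/-- kinds of hubs: `none` is `a`, `(none, j)` is `b j`, `(some i, j)` is `h i j` -/
abbrev HK := Option (Option (Fin 2) × Bool)
/-- kinds of slots -/
abbrev SK := Option (Fin 2 × Bool × Fin 3)

def ka : HK := none
def kb (j : Bool) : HK := some (none, j)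
def kh (i : Fin 2) (j : Bool) : HK := some (some i, j)

/-- hubs of a slot over the same base point -/
def L0 : SK → Bool → Finset HK
  | none, t => if t then {ka, kb false, kb true} else {kb false, kb true}
  | some (i, j, l), t =>
    if l = 0 then (if t then {ka, kh i j, kb j} else {ka, kh i j})
    else if l = 1 then (if t then {kb j, kh i j} else {kb j})
    else {kh i j}

/-- hubs of a slot over the next base point -/
def L1 : SK → Bool → Bool → Finset HK
  | none, _, _ => ∅
  | some (_, j, l), t, τ =>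
    if l = 0 then ∅ else if l = 1 then {kb (xor j τ)} else (if t then {ka, kb (xor j τ)} else {ka})

def dir : SK → Fin 2
  | none => 0
  | some (i, _, _) => i

section

variable {X : Type} [DecidableEq X]

/-- the hyperedges -/
def NN (π : Fin 2 → Equiv.Perm X) (σ : X → Fin 2 → Bool) : X × SK × Bool → Finset (X × HK) :=
  fun v => (L0 v.2.1 v.2.2).image (fun k => (v.1, k)) ∪
    (L1 v.2.1 v.2.2 (σ v.1 (dir v.2.1))).image (fun k => (π (dir v.2.1) v.1, k))

variable (π : Fin 2 → Equiv.Perm X) (σ : X → Fin 2 → Bool)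

def U1 : X → SK → X × HK
  | x, none => (x, kb false)
  | x, some (i, j, l) => if l = 0 then (x, ka) else if l = 1 then (x, kb j) else (π i x, ka)

def U2 : X → SK → X × HK
  | x, none => (x, kb true)
  | x, some (i, j, l) => if l = 0 then (x, kh i j) else
      if l = 1 then (π i x, kb (xor j (σ x i))) else (x, kh i j)

def W : X → SK → X × HK
  | x, none => (x, ka)
  | x, some (i, j, l) => if l = 0 then (x, kb j) else
      if l = 1 then (x, kh i j) else (π i x, kb (xor j (σ x i)))

lemma NN_false (x : X) (m : SK) : NN π σ (x, m, false) = {U1 π x m, U2 π σ x m} := by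
  rcases m with _ | ⟨i, j, l⟩
  · ext ⟨y, k⟩
    simp only [NN, L0, L1, U1, U2, mem_union, mem_image, mem_insert, mem_singleton,
      Bool.false_eq_true, if_false, Prod.mk.injEq]
    constructor
    · rintro (⟨k', rfl | rfl, rfl, rfl⟩ | ⟨k', hk, -⟩)
      · simp
      · simp
      · exact absurd hk (Finset.notMem_empty _)
    · rintro (⟨rfl, rfl⟩ | ⟨rfl, rfl⟩)
      · exact Or.inl ⟨_, Or.inl rfl, rfl, rfl⟩
      · exact Or.inl ⟨_, Or.inr rfl, rfl, rfl⟩
  · ext ⟨y, k⟩
    fin_cases l <;>
      simp [NN, L0, L1, U1, U2, dir, mem_union, mem_image, mem_insert, mem_singleton, eq_comm,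
        and_comm, or_comm]

lemma NN_true (x : X) (m : SK) : NN π σ (x, m, true) = {U1 π x m, U2 π σ x m, W π σ x m} := by
  rcases m with _ | ⟨i, j, l⟩
  · ext ⟨y, k⟩
    simp only [NN, L0, L1, U1, U2, W, mem_union, mem_image, mem_insert, mem_singleton,
      Bool.false_eq_true, if_false, if_true, Prod.mk.injEq]
    constructor
    · rintro (⟨k', rfl | rfl | rfl, rfl, rfl⟩ | ⟨k', hk, -⟩)
      · simp
      · simp
      · simp
      · exact absurd hk (Finset.notMem_empty _)
    · rintro (⟨rfl, rfl⟩ | ⟨rfl, rfl⟩ | ⟨rfl, rfl⟩)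
      · exact Or.inl ⟨_, Or.inr (Or.inl rfl), rfl, rfl⟩
      · exact Or.inl ⟨_, Or.inr (Or.inr rfl), rfl, rfl⟩
      · exact Or.inl ⟨_, Or.inl rfl, rfl, rfl⟩
  · ext ⟨y, k⟩
    fin_cases l <;>
      simp [NN, L0, L1, U1, U2, W, dir, mem_union, mem_image, mem_insert, mem_singleton, eq_comm,
        and_comm, or_comm, or_left_comm, or_assoc]

/-- parity of a hub -/
def par (u : X × HK) : Bool := match u.2 with
  | some (none, _) => true
  | _ => false

lemma par_U (x : X) (m : SK) : par (U1 π x m) = par (U2 π σ x m) := by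
  rcases m with _ | ⟨i, j, l⟩
  · rfl
  · fin_cases l <;> rfl

lemma par_W (x : X) (m : SK) : par (W π σ x m) ≠ par (U1 π x m) := by
  rcases m with _ | ⟨i, j, l⟩
  · simp [W, U1, par, kb, ka, kh]
  · fin_cases l <;> simp [W, U1, par, kb, ka, kh]

variable {π σ}

lemma U_ne (h1 : ∀ i x, π i x ≠ x) (x : X) (m : SK) : U1 π x m ≠ U2 π σ x m := by
  rcases m with _ | ⟨i, j, l⟩
  · simp [U1, U2, kb]
  · fin_cases l
    · simp [U1, U2, ka, kh]
    · simp only [U1, U2, Fin.mk_one, Fin.isValue, one_ne_zero, if_false, if_true, ne_eq,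
        Prod.mk.injEq, not_and]
      intro h
      exact absurd h.symm (h1 i x)
    · simp [U1, U2, ka, kh]

lemma W_ne1 (x : X) (m : SK) : W π σ x m ≠ U1 π x m := fun h => par_W π σ x m (by rw [h])
lemma W_ne2 (x : X) (m : SK) : W π σ x m ≠ U2 π σ x m :=
  fun h => par_W π σ x m (by rw [h, par_U π σ])

lemma NN_card (h1 : ∀ i x, π i x ≠ x) (t : X × SK × Bool) :
    2 ≤ (NN π σ t).card ∧ (NN π σ t).card ≤ 3 := by
  obtain ⟨x, m, b⟩ := t
  cases b
  · rw [NN_false, Finset.card_pair (U_ne h1 x m)]
    omega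
  · rw [NN_true, Finset.card_insert_of_notMem, Finset.card_pair (W_ne2 x m).symm]
    · omega
    · rw [mem_insert, mem_singleton, not_or]
      exact ⟨U_ne h1 x m, (W_ne1 x m).symm⟩

lemma NN_center (h1 : ∀ i x, π i x ≠ x) (t t' : X × SK × Bool) (h : NN π σ t' ⊆ NN π σ t) :
    U1 π t.1 t.2.1 ∈ NN π σ t' := by
  obtain ⟨x, m, b⟩ := t
  obtain ⟨x', m', b'⟩ := t'
  have hmem : U1 π x m ∈ NN π σ (x, m, b) := by
    cases b
    · rw [NN_false]; simp
    · rw [NN_true]; simp
  by_cases hc : (NN π σ (x, m, b)).card ≤ (NN π σ (x', m', b')).card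
  · rw [Finset.eq_of_subset_of_card_le h hc]
    exact hmem
  · push Not at hc
    have c1 : ∀ x m, (NN π σ (x, m, false)).card = 2 := fun x m => by
      rw [NN_false, Finset.card_pair (U_ne h1 x m)]
    have c2 : ∀ x m, (NN π σ (x, m, true)).card = 3 := fun x m => by
      rw [NN_true, Finset.card_insert_of_notMem, Finset.card_pair (W_ne2 x m).symm]
      rw [mem_insert, mem_singleton, not_or]
      exact ⟨U_ne h1 x m, (W_ne1 x m).symm⟩
    cases b <;> cases b' <;> simp only [c1, c2] at hc
    · omega
    · omega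
    · rw [NN_false] at h ⊢
      rw [NN_true] at h
      by_contra hcon
      rw [mem_insert, mem_singleton, not_or] at hcon
      have g1 : U1 π x' m' ∈ ({U1 π x m, U2 π σ x m, W π σ x m} : Finset (X × HK)) :=
        h (by simp)
      have g2 : U2 π σ x' m' ∈ ({U1 π x m, U2 π σ x m, W π σ x m} : Finset (X × HK)) :=
        h (by simp)
      simp only [mem_insert, mem_singleton] at g1 g2
      have hne := U_ne (σ := σ) h1 x' m'
      have hp := par_U π σ x' m'
      have hp2 := par_U π σ x m
      have hw := par_W π σ x m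
      rcases g1 with g1 | g1 | g1
      · exact hcon.1 g1.symm
      · rcases g2 with g2 | g2 | g2
        · exact hcon.2 g2.symm
        · exact hne (g1.trans g2.symm)
        · rw [g1, g2, ← hp2] at hp
          exact hw hp.symm
      · rcases g2 with g2 | g2 | g2
        · exact hcon.2 g2.symm
        · rw [g1, g2, ← hp2] at hp
          exact hw hp
        · exact hne (g1.trans g2.symm)
    · omega

end

end Pool.Agent.H125.BS
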