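import Pool.Agent.H125.BS.Inst

set_option autoImplicit false
set_option linter.unusedSectionVars false
set_option linter.unusedSimpArgs false

namespace Pool.Agent.H125.BS

open SimpleGraph Finset

section

variable {X : Type} [DecidableEq X]

/-- the pairs counted in the lower bound -/
def slot (π : Fin 2 → Equiv.Perm X) (σ : X → Fin 2 → Bool) :
    (X × SK) ⊕ ((X × Bool) ⊕ (X × Fin 2 × Bool × Bool)) → Sym2 (X × HK)
  | Sum.inl (x, m) => s(U1 π x m, U2 π σ x m)
  | Sum.inr (Sum.inl (x, j)) => s((x, ka), (x, kb j))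
  | Sum.inr (Sum.inr (x, i, j, e)) =>
    s((x, kh i j), if e then (π i x, kb (xor j (σ x i))) else (x, kb j))

lemma slot_inj {π : Fin 2 → Equiv.Perm X} {σ : X → Fin 2 → Bool} (h1 : ∀ i x, π i x ≠ x)
    (h2 : ∀ i i' x, π i x = π i' x → i = i') (h3 : ∀ i i' x, π i' (π i x) ≠ x) :
    Function.Injective (slot π σ) := by
  have h1' : ∀ i x, x ≠ π i x := fun i x h => h1 i x h.symm
  rintro (⟨x, _ | ⟨i, j, l⟩⟩ | ⟨x, j⟩ | ⟨x, i, j, e⟩) (⟨x', _ | ⟨i', j', l'⟩⟩ | ⟨x', j'⟩ | ⟨x', i', j', e'⟩) h
  · simp [slot, U1, U2, kb] at h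
    grind
  · fin_cases l' <;> simp [slot, U1, U2, ka, kb, kh] at h
    grind
  · simp [slot, U1, U2, ka, kb, kh] at h
  · cases e' <;> simp [slot, U1, U2, ka, kb, kh] at h
  · fin_cases l <;> simp [slot, U1, U2, ka, kb, kh] at h
    grind
  · fin_cases l <;> fin_cases l' <;> simp [slot, U1, U2, ka, kb, kh] at h ⊢ <;> grind
  · fin_cases l <;> simp [slot, U1, U2, ka, kb, kh] at h
  · fin_cases l <;> cases e' <;> simp [slot, U1, U2, ka, kb, kh] at h
  · simp [slot, U1, U2, ka, kb, kh] at h
  · fin_cases l' <;> simp [slot, U1, U2, ka, kb, kh] at h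
  · simp [slot, U1, U2, ka, kb, kh] at h
    rw [h.1, h.2]
  · cases e' <;> simp [slot, U1, U2, ka, kb, kh] at h
  · cases e <;> simp [slot, U1, U2, ka, kb, kh] at h
  · fin_cases l' <;> cases e <;> simp [slot, U1, U2, ka, kb, kh] at h
  · cases e <;> simp [slot, U1, U2, ka, kb, kh] at h
  · cases e <;> cases e' <;> simp [slot, U1, U2, ka, kb, kh] at h ⊢ <;> grind


variable [Fintype X]

lemma card_SK : Fintype.card SK = 13 := by
  simp [SK]

theorem lower_pairs {π : Fin 2 → Equiv.Perm X} {σ : X → Fin 2 → Bool} (h1 : ∀ i x, π i x ≠ x)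
    (h2 : ∀ i i' x, π i x = π i' x → i = i') (h3 : ∀ i i' x, π i' (π i x) ≠ x)
    (D : Finset (Sym2 (X × HK)))
    (hD : ∀ t, ∀ b ∈ NN π σ t, ∃ h ∈ NN π σ t, h ≠ b ∧ s(b, h) ∈ D) :
    ∃ s : X → Bool, 72 * Fintype.card X + (univ.filter fun p : X × Fin 2 =>
      s (π p.2 p.1) = xor (s p.1) (σ p.1 p.2)).card ≤ 4 * D.card := by
  classical
  have hforced : ∀ x m, slot π σ (Sum.inl (x, m)) ∈ D := by
    intro x m
    obtain ⟨h, hh, hne, hs⟩ := hD (x, m, false) (U1 π x m) (by rw [NN_false]; simp)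
    rw [NN_false, mem_insert, mem_singleton] at hh
    rcases hh with hh | hh
    · exact absurd hh hne
    · rw [hh] at hs
      exact hs
  have hW : ∀ x m, s(W π σ x m, U1 π x m) ∈ D ∨ s(W π σ x m, U2 π σ x m) ∈ D := by
    intro x m
    obtain ⟨h, hh, hne, hs⟩ := hD (x, m, true) (W π σ x m) (by rw [NN_true]; simp)
    rw [NN_true, mem_insert, mem_insert, mem_singleton] at hh
    rcases hh with hh | hh | hh
    · rw [hh] at hs
      exact Or.inl hs
    · rw [hh] at hs
      exact Or.inr hs
    · exact absurd hh hne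
  let p : X → Bool → Prop := fun x j => slot π σ (Sum.inr (Sum.inl (x, j))) ∈ D
  let q : X → Fin 2 → Bool → Prop := fun x i j => slot π σ (Sum.inr (Sum.inr (x, i, j, false))) ∈ D
  let r : X → Fin 2 → Bool → Prop := fun x i j => slot π σ (Sum.inr (Sum.inr (x, i, j, true))) ∈ D
  have hp : ∀ x, p x false ∨ p x true := fun x => hW x none
  have hpq : ∀ x i j, p x j ∨ q x i j := by
    intro x i j
    rcases hW x (some (i, j, 0)) with h | h
    · left
      simp only [p, slot]
      rw [Sym2.eq_swap]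
      exact h
    · right
      simp only [q, slot]
      rw [Sym2.eq_swap]
      exact h
  have hqr : ∀ x i j, q x i j ∨ r x i j := fun x i j => hW x (some (i, j, 1))
  have hrp : ∀ x i j, p (π i x) (xor j (σ x i)) ∨ r x i j := by
    intro x i j
    rcases hW x (some (i, j, 2)) with h | h
    · left
      simp only [p, slot]
      rw [Sym2.eq_swap]
      exact h
    · right
      simp only [r, slot]
      rw [Sym2.eq_swap]
      exact h
  let sp : X → Bool := fun x => decide (p x false)
  let Z : X → Prop := fun x => p x false ∧ p x true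
  have hsp : ∀ x, ¬ Z x → ¬ p x (sp x) := by
    intro x hZ hh
    by_cases hf : p x false
    · have : sp x = true := by simp [sp, hf]
      rw [this] at hh
      exact hZ ⟨hf, hh⟩
    · have : sp x = false := by simp [sp, hf]
      rw [this] at hh
      exact hf hh
  refine ⟨sp, ?_⟩
  have hcard0 : (univ.filter fun e => slot π σ e ∈ D).card ≤ D.card := by
    refine Finset.card_le_card_of_injOn (slot π σ) ?_ ?_
    · intro e he
      simp only [coe_filter, mem_univ, true_and, Set.mem_ofPred_eq] at he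
      exact he
    · exact (slot_inj h1 h2 h3).injOn
  have hcard : (∑ e, if slot π σ e ∈ D then 1 else 0) ≤ D.card := by
    rw [Finset.card_filter] at hcard0
    convert hcard0
  rw [Fintype.sum_sum_type, Fintype.sum_sum_type] at hcard
  have e1 : (∑ a : X × SK, if slot π σ (Sum.inl a) ∈ D then 1 else 0) = 13 * Fintype.card X := by
    rw [Finset.sum_congr rfl (fun a _ => if_pos (hforced a.1 a.2)), Finset.sum_const,
      Finset.card_univ, Fintype.card_prod, card_SK]
    simp only [smul_eq_mul, mul_one]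
    ring
  have e2 : ∑ x : X, (1 + if Z x then 1 else 0) ≤
      ∑ a : X × Bool, (if slot π σ (Sum.inr (Sum.inl a)) ∈ D then 1 else 0) := by
    rw [Fintype.sum_prod_type]
    refine Finset.sum_le_sum fun x _ => ?_
    rw [Fintype.sum_bool]
    have h := hp x
    simp only [p, Z] at h ⊢
    split_ifs <;> first | omega | tauto
  have e3 : ∑ x : X, ∑ i : Fin 2, (2 + if (sp (π i x) = xor (sp x) (σ x i) ∧ ¬ Z x ∧ ¬ Z (π i x))
      then 1 else 0) ≤ ∑ a : X × Fin 2 × Bool × Bool,
        (if slot π σ (Sum.inr (Sum.inr a)) ∈ D then 1 else 0) := by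
    rw [Fintype.sum_prod_type]
    refine Finset.sum_le_sum fun x _ => ?_
    rw [Fintype.sum_prod_type]
    refine Finset.sum_le_sum fun i _ => ?_
    rw [Fintype.sum_prod_type]
    have hj : ∀ j : Bool, 1 + (if (j = sp x ∧ sp (π i x) = xor (sp x) (σ x i) ∧ ¬ Z x ∧
        ¬ Z (π i x)) then 1 else 0) ≤ ∑ e : Bool,
          (if slot π σ (Sum.inr (Sum.inr (x, i, j, e))) ∈ D then 1 else 0) := by
      intro j
      rw [Fintype.sum_bool]
      have g1 := hpq x i j
      have g2 := hqr x i j
      have g3 := hrp x i j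
      split_ifs with c1 c2 c3 c3 c2 c3 c3
      · omega
      · obtain ⟨rfl, c4, c5, c6⟩ := c1
        rcases g1 with g1 | g1
        · exact absurd g1 (hsp x c5)
        · exact absurd g1 c3
      · obtain ⟨rfl, c4, c5, c6⟩ := c1
        rcases g3 with g3 | g3
        · rw [← c4] at g3
          exact absurd g3 (hsp _ c6)
        · exact absurd g3 c2
      · obtain ⟨rfl, c4, c5, c6⟩ := c1
        rcases g2 with g2 | g2
        · exact absurd g2 c3
        · exact absurd g2 c2
      · omega
      · omega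
      · omega
      · rcases g2 with g2 | g2
        · exact absurd g2 c3
        · exact absurd g2 c2
    rw [Fintype.sum_bool]
    have ht := hj true
    have hf := hj false
    refine le_trans ?_ (Nat.add_le_add ht hf)
    by_cases hc : sp (π i x) = xor (sp x) (σ x i) ∧ ¬ Z x ∧ ¬ Z (π i x)
    · rw [if_pos hc]
      cases hs : sp x
      · rw [if_pos (⟨rfl, by rw [← hs]; exact hc.1, hc.2⟩ : false = false ∧ _)]
        omega
      · rw [if_pos (⟨rfl, by rw [← hs]; exact hc.1, hc.2⟩ : true = true ∧ _)]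
        omega
    · rw [if_neg hc]
      omega
  have e4 : (univ.filter fun p : X × Fin 2 => sp (π p.2 p.1) = xor (sp p.1) (σ p.1 p.2)).card ≤
      ∑ x : X, ∑ i : Fin 2, ((if (sp (π i x) = xor (sp x) (σ x i) ∧ ¬ Z x ∧ ¬ Z (π i x))
      then 1 else 0) + (if Z x then 1 else 0) + if Z (π i x) then 1 else 0) := by
    rw [Finset.card_filter, Fintype.sum_prod_type]
    refine Finset.sum_le_sum fun x _ => Finset.sum_le_sum fun i _ => ?_
    simp only
    split_ifs <;> first | omega | tauto
  have e5 : ∀ i, ∑ x : X, (if Z (π i x) then 1 else 0) = ∑ x : X, (if Z x then 1 else 0) :=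
    fun i => Equiv.sum_comp (π i) fun x => if Z x then 1 else 0
  simp only [Fin.sum_univ_two, Finset.sum_add_distrib, Finset.sum_const, Finset.card_univ,
    smul_eq_mul, e5, Fintype.card_fin, ← Finset.mul_sum] at e2 e3 e4
  omega

/-- Every 2-rewiring has many edges. -/
theorem lower_edges {π : Fin 2 → Equiv.Perm X} {σ : X → Fin 2 → Bool} (h1 : ∀ i x, π i x ≠ x)
    (h2 : ∀ i i' x, π i x = π i' x → i = i') (h3 : ∀ i i' x, π i' (π i x) ≠ x)
    (H : SimpleGraph ((X × HK) ⊕ ((X × SK × Bool) × Fin 4))) (hf : Feas (gad (NN π σ)) H) :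
    ∃ s : X → Bool, 488 * Fintype.card X + (univ.filter fun p : X × Fin 2 =>
      s (π p.2 p.1) = xor (s p.1) (σ p.1 p.2)).card ≤ 4 * H.edgeSet.ncard := by
  obtain ⟨D, hD1, hD2⟩ := partA (N := NN π σ) (NN_card h1) (fun t => U1 π t.1 t.2.1)
    (fun t t' h => NN_center h1 t t' h) H hf
  obtain ⟨s, hs⟩ := lower_pairs h1 h2 h3 D hD2
  refine ⟨s, ?_⟩
  have hT : Fintype.card (X × SK × Bool) = 26 * Fintype.card X := by
    rw [Fintype.card_prod, Fintype.card_prod, card_SK, Fintype.card_bool]
    ring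
  rw [hT] at hD1
  omega

end

end Pool.Agent.H125.BS
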